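import Pool.Agent.Lib.MP_7fb13b_lc.UP.Defs

/-!
# MP_7fb13b_lc, row AMP: exact amplitude amplification
-/

open Matrix

namespace RotFourier.UP

section

variable {ι κ : Type} [Fintype ι] [DecidableEq ι] [Fintype κ] [DecidableEq κ]

/-- The corner of a matrix. -/
lemma corner_apply (e : ι ↪ κ) (W : Matrix κ κ ℂ) (x y : ι) :
    ((inc e)ᴴ * W * inc e) x y = W (e x) (e y) := by
  rw [Matrix.mul_apply, Finset.sum_eq_single (e y)]
  · rw [Matrix.mul_apply, Finset.sum_eq_single (e x)]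
    · simp [inc]
    · intro b _ hb
      simp [inc, hb]
    · simp
  · intro b _ hb
    simp [inc, hb]
  · simp

/-- One step of the amplification. -/
noncomputable def ampl (e : ι ↪ κ) (W : Matrix κ κ ℂ) : Matrix κ κ ℂ :=
  W * place e (Matrix.diagonal fun _ => (-1 : ℂ)) * Wᴴ *
    place e (Matrix.diagonal fun _ => (-1 : ℂ)) * W

lemma place_neg (e : ι ↪ κ) : place e (Matrix.diagonal fun _ => (-1 : ℂ)) =
    1 - (2 : ℂ) • (inc e * (inc e)ᴴ) := by
  have h : (Matrix.diagonal fun _ : ι => (-1 : ℂ)) - 1 = -((2 : ℂ) • (1 : Matrix ι ι ℂ)) := by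
    ext i j
    by_cases hij : i = j
    · subst hij
      simp
      norm_num
    · simp [hij]
  unfold place
  rw [h, Matrix.mul_neg, Matrix.mul_smul, Matrix.mul_one, Matrix.neg_mul, Matrix.smul_mul,
    sub_eq_add_neg]

lemma ampl_alg (hD : DiagStatement) (e : ι ↪ κ) {W : Matrix κ κ ℂ} {s : ℕ}
    (h2 : 2 ≤ Fintype.card κ) (hW : Alg s W) : Alg (3 * s + 2 * Fintype.card κ) (ampl e W) := by
  have h1 := hD ι κ e (fun _ => (-1 : ℂ)) h2 (fun _ => by simp)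
  have h3 : Fintype.card ι ≤ Fintype.card κ := Fintype.card_le_of_injective e e.injective
  refine ((((hW.mul h1).mul hW.conj).mul h1).mul hW).mono ?_
  omega

lemma ampl_corner (e : ι ↪ κ) {W : Matrix κ κ ℂ} (hW : W ∈ Matrix.unitaryGroup κ ℂ)
    {U : Matrix ι ι ℂ} (hU : U ∈ Matrix.unitaryGroup ι ℂ) (b : ℝ)
    (hc : (inc e)ᴴ * W * inc e = (b : ℂ) • U) :
    (inc e)ᴴ * ampl e W * inc e = (4 * (b : ℂ) ^ 3 - 3 * b) • U := by
  have hE := inc_conj_mul_inc (κ := κ) e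
  have hW1 : W * Wᴴ = 1 := by
    rw [← Matrix.star_eq_conjTranspose]
    exact Matrix.mem_unitaryGroup_iff.1 hW
  have hW2 : Wᴴ * W = 1 := by
    rw [← Matrix.star_eq_conjTranspose]
    exact Matrix.mem_unitaryGroup_iff'.1 hW
  have hU1 : U * Uᴴ = 1 := by
    rw [← Matrix.star_eq_conjTranspose]
    exact Matrix.mem_unitaryGroup_iff.1 hU
  have hc' : (inc e)ᴴ * Wᴴ * inc e = (b : ℂ) • Uᴴ := by
    have h := congrArg Matrix.conjTranspose hc
    rw [Matrix.conjTranspose_mul, Matrix.conjTranspose_mul, Matrix.conjTranspose_conjTranspose,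
      Matrix.conjTranspose_smul, ← Matrix.mul_assoc] at h
    rw [h, Complex.star_def, Complex.conj_ofReal]
  -- expansion
  have hex : ampl e W = W - (2 : ℂ) • (inc e * ((inc e)ᴴ * W)) - (2 : ℂ) • ((W * inc e) * (inc e)ᴴ) +
      (4 : ℂ) • ((W * inc e) * ((inc e)ᴴ * Wᴴ * inc e) * ((inc e)ᴴ * W)) := by
    unfold ampl
    rw [place_neg]
    calc W * (1 - (2 : ℂ) • (inc e * (inc e)ᴴ)) * Wᴴ * (1 - (2 : ℂ) • (inc e * (inc e)ᴴ)) * W
        = (W * Wᴴ) * W - (2 : ℂ) • ((W * Wᴴ) * (inc e * ((inc e)ᴴ * W))) -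
          (2 : ℂ) • ((W * inc e) * (inc e)ᴴ * (Wᴴ * W)) +
          ((2 : ℂ) * 2) • ((W * inc e) * ((inc e)ᴴ * Wᴴ * inc e) * ((inc e)ᴴ * W)) := by
          rw [← smul_smul]
          simp only [Matrix.mul_sub, Matrix.sub_mul, Matrix.mul_one,
            Matrix.mul_smul, Matrix.smul_mul, Matrix.mul_assoc, smul_sub]
          abel
      _ = _ := by
          rw [hW1, hW2, Matrix.one_mul, Matrix.one_mul, Matrix.mul_one]
          norm_num
  have key : (inc e)ᴴ * ampl e W * inc e =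
      ((inc e)ᴴ * W * inc e) - (2 : ℂ) • (((inc e)ᴴ * inc e) * ((inc e)ᴴ * W * inc e)) -
      (2 : ℂ) • (((inc e)ᴴ * W * inc e) * ((inc e)ᴴ * inc e)) +
      (4 : ℂ) • (((inc e)ᴴ * W * inc e) * ((inc e)ᴴ * Wᴴ * inc e) * ((inc e)ᴴ * W * inc e)) := by
    rw [hex]
    simp only [Matrix.mul_sub, Matrix.sub_mul, Matrix.mul_add, Matrix.add_mul, Matrix.mul_smul,
      Matrix.smul_mul, Matrix.mul_assoc]
  rw [key, hE, hc, hc', Matrix.one_mul, Matrix.mul_one]
  have h3 : ((b : ℂ) • U) * ((b : ℂ) • Uᴴ) * ((b : ℂ) • U) = ((b : ℂ) ^ 3) • U := by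
    have h4 : ((b : ℂ) • U) * ((b : ℂ) • Uᴴ) * ((b : ℂ) • U) =
        ((b : ℂ) * ((b : ℂ) * (b : ℂ))) • ((U * Uᴴ) * U) := by
      simp only [Matrix.smul_mul, Matrix.mul_smul, smul_smul]
    rw [h4, hU1, Matrix.one_mul]
    congr 1
    ring
  rw [h3, smul_smul, smul_smul, ← sub_smul, ← sub_smul, ← add_smul]
  congr 1
  ring

end

/-- Row AMP. -/
theorem amp_proof (h : DiagStatement) : AmpStatement := by
  intro ι κ _ _ _ _ e W U s β h2 hU hβ hc hW
  have hc0 : (inc e)ᴴ * W * inc e = (β : ℂ) • U := by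
    ext x y
    rw [corner_apply, hc x y]
    rfl
  have h1 := ampl_corner e hW.unitary hU β hc0
  have hβ' : (4 * (β : ℂ) ^ 3 - 3 * β) = (((-1 / 2 : ℝ)) : ℂ) := by
    have : 4 * β ^ 3 - 3 * β = (-1 / 2 : ℝ) := by linarith
    rw [← this]
    push_cast
    ring
  rw [hβ'] at h1
  have hA1 := ampl_alg h e h2 hW
  have h3 := ampl_corner e hA1.unitary hU (-1 / 2 : ℝ) h1
  have h4 : (4 * ((-1 / 2 : ℝ) : ℂ) ^ 3 - 3 * ((-1 / 2 : ℝ) : ℂ)) = 1 := by
    push_cast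
    norm_num
  rw [h4, one_smul] at h3
  refine ⟨ampl e (ampl e W), fun x y => ?_, (ampl_alg h e h2 hA1).mono (by omega)⟩
  exact (corner_apply e (ampl e (ampl e W)) x y).symm.trans (congrFun (congrFun h3 x) y)

end RotFourier.UP
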