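import Pool.Agent.Lib.MP_7fb13b_lc.UP.Defs

/-!
# MP_7fb13b_lc, board UFN: row BLK (helper30)
-/

open Matrix

namespace RotFourier.UP

/-- The entries of a block diagonal matrix with one nontrivial block, away from this block. -/
theorem blk_entry {ι o : Type} [Fintype ι] [DecidableEq ι] [Fintype o] [DecidableEq o]
    (j : o) (A : Matrix ι ι ℂ) (x y : ι × o) (h : x.2 ≠ j ∨ y.2 ≠ j) :
    Matrix.blockDiagonal (Function.update (fun _ : o => (1 : Matrix ι ι ℂ)) j A) x y =
      (1 : Matrix (ι × o) (ι × o) ℂ) x y := by
  rw [Matrix.blockDiagonal_apply]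
  by_cases hxy : x.2 = y.2
  · rw [if_pos hxy]
    have hx : x.2 ≠ j := by
      rcases h with h | h
      · exact h
      · rw [hxy]
        exact h
    rw [Function.update_of_ne hx, Matrix.one_apply, Matrix.one_apply]
    by_cases h1 : x.1 = y.1
    · rw [if_pos h1, if_pos (Prod.ext h1 hxy)]
    · rw [if_neg h1, if_neg (fun h => h1 (congrArg Prod.fst h))]
  · rw [if_neg hxy, Matrix.one_apply_ne (fun h => hxy (congrArg Prod.snd h))]

theorem blk_one {ι o κ : Type} [Fintype ι] [DecidableEq ι] [Fintype o] [DecidableEq o]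
    [Fintype κ] [DecidableEq κ] (g : ι × o ↪ κ) (j : o) (A : Matrix ι ι ℂ) (h : ι ↪ κ)
    (hh : ∀ i, h i = g (i, j)) :
    place g (Matrix.blockDiagonal (Function.update (fun _ : o => (1 : Matrix ι ι ℂ)) j A)) =
      place h A := by
  have key : ∀ x y : ι × o, (x.2 ≠ j ∨ y.2 ≠ j) →
      place g (Matrix.blockDiagonal (Function.update (fun _ : o => (1 : Matrix ι ι ℂ)) j A))
        (g x) (g y) = (1 : Matrix κ κ ℂ) (g x) (g y) := by
    intro x y hxy
    rw [place_apply, blk_entry j A x y hxy, Matrix.one_apply, Matrix.one_apply]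
    by_cases h1 : x = y
    · rw [if_pos h1, if_pos (congrArg g h1)]
    · rw [if_neg h1, if_neg (g.injective.ne h1)]
  refine eq_place (fun i i' => ?_) (fun k l hk => ?_) (fun k l hl => ?_)
  · rw [hh i, hh i', place_apply, Matrix.blockDiagonal_apply, if_pos rfl, Function.update_self]
  · by_cases hkg : ∀ x, k ≠ g x
    · exact place_apply_left g _ k l hkg
    · by_cases hlg : ∀ x, l ≠ g x
      · exact place_apply_right g _ k l hlg
      · push Not at hkg hlg
        obtain ⟨x, rfl⟩ := hkg
        obtain ⟨y, rfl⟩ := hlg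
        refine key x y (Or.inl (fun hx => hk x.1 ?_))
        rw [hh x.1, ← hx]
  · by_cases hkg : ∀ x, k ≠ g x
    · exact place_apply_left g _ k l hkg
    · by_cases hlg : ∀ x, l ≠ g x
      · exact place_apply_right g _ k l hlg
      · push Not at hkg hlg
        obtain ⟨x, rfl⟩ := hkg
        obtain ⟨y, rfl⟩ := hlg
        refine key x y (Or.inr (fun hy => hl y.1 ?_))
        rw [hh y.1, ← hy]

theorem blk_ind {ι o κ : Type} [Fintype ι] [DecidableEq ι] [Fintype o] [DecidableEq o]
    [Fintype κ] [DecidableEq κ] (g : ι × o ↪ κ) (U : o → Matrix ι ι ℂ) (s : ℕ)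
    (hU : ∀ (j : o) (h : ι ↪ κ), (∀ i, h i = g (i, j)) → Alg s (place h (U j)))
    (t : Finset o) :
    Alg (t.card * s) (place g (Matrix.blockDiagonal fun j => if j ∈ t then U j else 1)) := by
  induction t using Finset.induction_on with
  | empty =>
    have h : (Matrix.blockDiagonal fun j : o => if j ∈ (∅ : Finset o) then U j else 1) = 1 := by
      simp only [Finset.notMem_empty, if_false]
      exact Matrix.blockDiagonal_one
    rw [h, place_one]
    exact Alg.one _
  | insert a t ha ih =>
    have h : (Matrix.blockDiagonal fun j : o => if j ∈ insert a t then U j else 1) =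
        (Matrix.blockDiagonal fun j : o => if j ∈ t then U j else 1) *
          Matrix.blockDiagonal (Function.update (fun _ => (1 : Matrix ι ι ℂ)) a (U a)) := by
      rw [← Matrix.blockDiagonal_mul]
      congr 1
      funext j
      by_cases hj : j = a
      · subst hj
        rw [if_pos (Finset.mem_insert_self j t), if_neg ha, Function.update_self, one_mul]
      · rw [Function.update_of_ne hj, mul_one]
        by_cases hjt : j ∈ t
        · rw [if_pos hjt, if_pos (Finset.mem_insert_of_mem hjt)]
        · rw [if_neg hjt, if_neg (fun h => (Finset.mem_insert.1 h).elim hj hjt)]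
    rw [h, place_mul, Finset.card_insert_of_notMem ha, Nat.add_mul, Nat.one_mul]
    refine ih.mul ?_
    rw [blk_one g a (U a) ⟨fun i => g (i, a), fun i i' hi =>
      congrArg Prod.fst (g.injective hi)⟩ (fun i => rfl)]
    exact hU a _ (fun i => rfl)

theorem blk_proof : BlkStatement := by
  intro ι o κ _ _ _ _ _ _ g U s hU
  have h := blk_ind g U s hU Finset.univ
  simpa using h

end RotFourier.UP
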