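import Pool.Agent.Lib.MP_7fb13b_lc.UP.Defs

/-!
# MP_7fb13b_lc : row CHI, chirps
-/

open Matrix

set_option linter.unusedSectionVars false

namespace RotFourier.UP

namespace Chi

lemma circ_mul {m : ℕ} (hm : 0 < m) (a b : Fin m → ℂ) :
    circ a * circ b = circ (fun k => a k * b k) := by
  unfold circ
  have h := dft_mul_conjTranspose hm
  calc (dft m)ᴴ * diagonal a * dft m * ((dft m)ᴴ * diagonal b * dft m)
      = (dft m)ᴴ * diagonal a * (dft m * (dft m)ᴴ) * diagonal b * dft m := by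
        simp only [Matrix.mul_assoc]
    _ = (dft m)ᴴ * (diagonal a * diagonal b) * dft m := by
        rw [h, Matrix.mul_one]; simp only [Matrix.mul_assoc]
    _ = _ := by rw [Matrix.diagonal_mul_diagonal]

lemma circ_conj {m : ℕ} (a : Fin m → ℂ) : (circ a)ᴴ = circ (fun k => star (a k)) := by
  unfold circ
  rw [Matrix.conjTranspose_mul, Matrix.conjTranspose_mul, Matrix.conjTranspose_conjTranspose,
    Matrix.diagonal_conjTranspose, Matrix.mul_assoc]
  rfl

lemma circ_one {m : ℕ} (hm : 0 < m) : circ (fun _ : Fin m => (1 : ℂ)) = 1 := by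
  unfold circ
  rw [Matrix.diagonal_one, Matrix.mul_one, conjTranspose_mul_dft hm]

variable {m : ℕ} [NeZero m]

/-- The character `exp (-2 pi i a / m)`. -/
noncomputable def psi (a : ZMod m) : ℂ := ZMod.stdAddChar (-a)

lemma psi_add (a b : ZMod m) : psi (a + b) = psi a * psi b := by
  unfold psi
  rw [neg_add, AddChar.map_add_eq_mul]

lemma psi_norm (a : ZMod m) : ‖psi a‖ = 1 := by
  unfold psi
  exact AddChar.norm_apply _ _

lemma psi_star (a : ZMod m) : star (psi a) = psi (-a) := by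
  unfold psi
  rw [Complex.star_def, ← AddChar.map_neg_eq_conj]

/-- The coordinates as residues. -/
noncomputable def eqv (m : ℕ) [NeZero m] : Fin m ≃ ZMod m where
  toFun k := ((k : ℕ) : ZMod m)
  invFun a := ⟨a.val, ZMod.val_lt a⟩
  left_inv k := by
    apply Fin.ext
    exact ZMod.val_cast_of_lt k.2
  right_inv a := ZMod.natCast_zmod_val a

lemma eqv_apply (k : Fin m) : eqv m k = ((k : ℕ) : ZMod m) := rfl

lemma dft_eq (k l : Fin m) :
    dft m k l = ((Real.sqrt m : ℝ) : ℂ)⁻¹ * psi (eqv m k * eqv m l) := by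
  unfold dft psi
  congr 1
  have h : -(eqv m k * eqv m l) = ((-((k : ℕ) * (l : ℕ) : ℤ) : ℤ) : ZMod m) := by
    rw [eqv_apply, eqv_apply]; push_cast; ring
  rw [h, ZMod.stdAddChar_coe]
  congr 1
  push_cast
  ring

lemma sqrt_inv_mul : (((Real.sqrt m : ℝ) : ℂ))⁻¹ * (((Real.sqrt m : ℝ) : ℂ))⁻¹ = (m : ℂ)⁻¹ := by
  rw [← mul_inv, ← Complex.ofReal_mul, Real.mul_self_sqrt (by positivity)]
  simp

lemma circ_apply (c : Fin m → ℂ) (x y : Fin m) :
    circ c x y = (m : ℂ)⁻¹ * ∑ k : Fin m, c k * psi (eqv m k * (eqv m y - eqv m x)) := by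
  unfold circ
  rw [Matrix.mul_apply, Finset.mul_sum]
  refine Finset.sum_congr rfl fun k _ => ?_
  rw [Matrix.mul_diagonal, Matrix.conjTranspose_apply, dft_eq, dft_eq, star_mul', psi_star,
    Complex.star_def, map_inv₀, Complex.conj_ofReal, ← sqrt_inv_mul (m := m)]
  have : psi (eqv m k * (eqv m y - eqv m x)) =
      psi (-(eqv m k * eqv m x)) * psi (eqv m k * eqv m y) := by
    rw [← psi_add]; congr 1; ring
  rw [this]
  ring

/-- Multiplication by a unit. -/
noncomputable def sg (u v : ZMod m) (h : u * v = 1) : Equiv.Perm (Fin m) where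
  toFun k := (eqv m).symm (u * eqv m k)
  invFun k := (eqv m).symm (v * eqv m k)
  left_inv k := by
    simp only [Equiv.apply_symm_apply]
    rw [← mul_assoc, mul_comm v u, h, one_mul, Equiv.symm_apply_apply]
  right_inv k := by
    simp only [Equiv.apply_symm_apply]
    rw [← mul_assoc, h, one_mul, Equiv.symm_apply_apply]

lemma sg_apply (u v : ZMod m) (h : u * v = 1) (k : Fin m) :
    eqv m (sg u v h k) = u * eqv m k := by
  simp [sg]

lemma sg_inv_apply (u v : ZMod m) (h : u * v = 1) (k : Fin m) :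
    eqv m ((sg u v h)⁻¹ k) = v * eqv m k := by
  change eqv m ((sg u v h).symm k) = _
  simp [sg]

lemma sg_conj_circ (u v : ZMod m) (h : u * v = 1) (c : Fin m → ℂ) :
    pm (sg u v h) * circ c * (pm (sg u v h))ᴴ = circ (fun k => c (sg u v h k)) := by
  ext x y
  rw [pm_conj, mul_pm_apply, pm_mul_apply, circ_apply, circ_apply]
  congr 1
  rw [← Equiv.sum_comp (sg u v h)]
  refine Finset.sum_congr rfl fun k _ => ?_
  rw [sg_inv_apply, sg_inv_apply, sg_apply]
  congr 2
  linear_combination (eqv m k * (eqv m y - eqv m x)) * h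

lemma unit_entry {A : Matrix (Fin m) (Fin m) ℂ} {z : ℂ} (h : A * Aᴴ = 1)
    (hz : A = z • dft m) : ‖z‖ = 1 := by
  have hm : 0 < m := Nat.pos_of_ne_zero (NeZero.ne m)
  rw [hz, Matrix.conjTranspose_smul, Matrix.smul_mul, Matrix.mul_smul,
    dft_mul_conjTranspose hm, smul_smul] at h
  have h1 := congrFun (congrFun h ⟨0, hm⟩) ⟨0, hm⟩
  rw [Matrix.smul_apply, Matrix.one_apply_eq, smul_eq_mul, mul_one, Complex.star_def,
    Complex.mul_conj, Complex.normSq_eq_norm_sq] at h1
  have h2 : ‖z‖ ^ 2 = 1 := by exact_mod_cast h1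
  nlinarith [norm_nonneg z]

end Chi

open Chi in
theorem chi_proof : ChiStatement := by
  intro m hm hc
  haveI : NeZero m := ⟨hm.ne'⟩
  obtain ⟨w, hw⟩ : ∃ w : ZMod m, 6 * w = 1 := by
    have := ZMod.coe_mul_inv_eq_one 6 (Nat.Coprime.symm hc)
    exact ⟨((6 : ℕ) : ZMod m)⁻¹, by exact_mod_cast this⟩
  set v : ZMod m := 3 * w with hv
  have h2v : (2 : ZMod m) * v = 1 := by rw [hv]; linear_combination hw
  set σ := sg (2 : ZMod m) v h2v with hσ
  set c : Fin m → ℂ := fun k => psi (w * eqv m k ^ 2) with hcdef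
  set d : Fin m → ℂ := fun k => psi (v * eqv m k ^ 2) with hddef
  have hcn : ∀ k, ‖c k‖ = 1 := fun k => psi_norm _
  have hdn : ∀ k, ‖d k‖ = 1 := fun k => psi_norm _
  have hT : pm σ * circ c * (pm σ)ᴴ * (circ c)ᴴ = circ d := by
    rw [sg_conj_circ, circ_conj, circ_mul hm]
    congr 1
    funext k
    simp only [hcdef, hddef]
    rw [psi_star, ← psi_add, sg_apply, hv]
    congr 1
    ring
  set G : ℂ := ∑ k : ZMod m, psi (v * k ^ 2) with hG
  have hcirc : ∀ x y, circ d x y = (m : ℂ)⁻¹ * (G * psi (-(v * (eqv m y - eqv m x) ^ 2))) := by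
    intro x y
    rw [circ_apply]
    congr 1
    rw [hG, Finset.sum_mul, ← Equiv.sum_comp (Equiv.addRight (eqv m y - eqv m x)),
      ← Equiv.sum_comp (eqv m)]
    refine Finset.sum_congr rfl fun k _ => ?_
    simp only [hddef, Equiv.coe_addRight]
    rw [← psi_add, ← psi_add]
    congr 1
    linear_combination (-(eqv m k * (eqv m y - eqv m x))) * h2v
  have hdTd : Matrix.diagonal d * circ d * Matrix.diagonal d =
      (((Real.sqrt m : ℝ) : ℂ)⁻¹ * G) • dft m := by
    ext x y
    rw [Matrix.mul_diagonal, Matrix.diagonal_mul, hcirc, Matrix.smul_apply, dft_eq, smul_eq_mul,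
      ← sqrt_inv_mul (m := m)]
    simp only [hddef]
    have : psi (eqv m x * eqv m y) = psi (v * eqv m x ^ 2) *
        psi (-(v * (eqv m y - eqv m x) ^ 2)) * psi (v * eqv m y ^ 2) := by
      rw [← psi_add, ← psi_add]
      congr 1
      linear_combination (-(eqv m x * eqv m y)) * h2v
    rw [this]
    ring
  have hdd : ∀ k, d k * star (d k) = 1 := by
    intro k
    rw [Complex.star_def, Complex.mul_conj, Complex.normSq_eq_norm_sq, hdn]
    simp
  have hdiag : Matrix.diagonal d * (Matrix.diagonal d)ᴴ = 1 := by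
    rw [Matrix.diagonal_conjTranspose, Matrix.diagonal_mul_diagonal, ← Matrix.diagonal_one]
    congr 1
    funext k
    exact hdd k
  have hcu : circ d * (circ d)ᴴ = 1 := by
    rw [circ_conj, circ_mul hm, ← circ_one hm]
    congr 1
    funext k
    exact hdd k
  have hun : (Matrix.diagonal d * circ d * Matrix.diagonal d) *
      (Matrix.diagonal d * circ d * Matrix.diagonal d)ᴴ = 1 := by
    rw [Matrix.conjTranspose_mul, Matrix.conjTranspose_mul]
    calc Matrix.diagonal d * circ d * Matrix.diagonal d *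
          ((Matrix.diagonal d)ᴴ * ((circ d)ᴴ * (Matrix.diagonal d)ᴴ))
        = Matrix.diagonal d * (circ d * (Matrix.diagonal d * (Matrix.diagonal d)ᴴ) * (circ d)ᴴ) *
          (Matrix.diagonal d)ᴴ := by simp only [Matrix.mul_assoc]
      _ = 1 := by rw [hdiag, Matrix.mul_one, hcu, Matrix.mul_one, hdiag]
  set z : ℂ := ((Real.sqrt m : ℝ) : ℂ)⁻¹ * G with hz
  have hz1 : ‖z‖ = 1 := unit_entry hun hdTd
  have hz0 : z ≠ 0 := by
    intro h0
    rw [h0, norm_zero] at hz1
    exact zero_ne_one hz1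
  refine ⟨σ, c, d, fun k => z⁻¹ * d k, hcn, hdn, fun k => ?_, ?_⟩
  · rw [norm_mul, norm_inv, hz1, hdn]; simp
  · rw [hT]
    have h1 : Matrix.diagonal (fun k => z⁻¹ * d k) = z⁻¹ • Matrix.diagonal d := by
      rw [← Matrix.diagonal_smul]
      rfl
    rw [h1, Matrix.mul_smul, hdTd, smul_smul, inv_mul_cancel₀ hz0, one_smul]

end RotFourier.UP
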