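import Pool.Agent.Lib.MP_7fb13b_lc.UP.Defs

/-!
# MP_7fb13b_lc : the matrix identity of Cooley and Tukey (row CID)
-/

open Matrix

namespace RotFourier.UP

/-- The product of the three factors, entrywise. -/
private lemma cid_prod_apply (a b : ℕ) (tw : Fin a × Fin b → ℂ) (x y : Fin a × Fin b) :
    ((Matrix.blockDiagonal fun _ : Fin a => dft b).submatrix Prod.swap Prod.swap *
          Matrix.diagonal tw * Matrix.blockDiagonal fun _ : Fin b => dft a) x y =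
      dft b x.2 y.2 * tw (x.1, y.2) * dft a x.1 y.1 := by
  rw [Matrix.mul_apply, Finset.sum_eq_single (x.1, y.2)]
  · rw [Matrix.mul_diagonal, Matrix.submatrix_apply, Matrix.blockDiagonal_apply,
      Matrix.blockDiagonal_apply]
    simp
  · rintro ⟨z1, z2⟩ _ hz
    rw [Matrix.mul_diagonal, Matrix.submatrix_apply, Matrix.blockDiagonal_apply,
      Matrix.blockDiagonal_apply]
    by_cases h1 : x.1 = z1
    · have h2 : z2 ≠ y.2 := fun h => hz (by rw [h1, h])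
      simp [h2]
    · simp [h1]
  · intro h
    exact absurd (Finset.mem_univ _) h

/-- The exponential identity. -/
private lemma cid_exp (a b : ℕ) (ha : (a : ℂ) ≠ 0) (hb : (b : ℂ) ≠ 0) (k1 k2 l1 l2 : ℕ) :
    Complex.exp (-2 * Real.pi * Complex.I * ((k1 : ℂ) + a * k2) * ((l2 : ℂ) + b * l1) / (a * b)) =
      Complex.exp (-2 * Real.pi * Complex.I * (k2 : ℂ) * (l2 : ℂ) / (b : ℂ)) *
        Complex.exp (-2 * Real.pi * Complex.I * (k1 : ℂ) * (l2 : ℂ) / (a * b)) *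
        Complex.exp (-2 * Real.pi * Complex.I * (k1 : ℂ) * (l1 : ℂ) / (a : ℂ)) := by
  rw [← Complex.exp_add, ← Complex.exp_add]
  have h : -2 * Real.pi * Complex.I * ((k1 : ℂ) + a * k2) * ((l2 : ℂ) + b * l1) / (a * b) =
      (-2 * Real.pi * Complex.I * (k2 : ℂ) * (l2 : ℂ) / (b : ℂ) +
        -2 * Real.pi * Complex.I * (k1 : ℂ) * (l2 : ℂ) / (a * b) +
        -2 * Real.pi * Complex.I * (k1 : ℂ) * (l1 : ℂ) / (a : ℂ)) +
      ((-((k2 * l1 : ℕ) : ℤ) : ℤ) : ℂ) * (2 * Real.pi * Complex.I) := by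
    push_cast
    field_simp
    ring
  rw [h, Complex.exp_add, Complex.exp_int_mul_two_pi_mul_I, mul_one]

theorem cid_proof : CidStatement := by
  intro a b ha hb
  have ha' : (a : ℂ) ≠ 0 := by exact_mod_cast ha.ne'
  have hb' : (b : ℂ) ≠ 0 := by exact_mod_cast hb.ne'
  let e : Fin a × Fin b ≃ Fin (a * b) := finProdFinEquiv
  let e1 : Fin a × Fin b ≃ Fin (a * b) :=
    ((Equiv.prodComm (Fin a) (Fin b)).trans finProdFinEquiv).trans (finCongr (Nat.mul_comm b a))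
  refine ⟨e, e.symm.trans e1, fun x => Complex.exp (-2 * Real.pi * Complex.I *
    ((x.1 : ℕ) : ℂ) * ((x.2 : ℕ) : ℂ) / ((a : ℂ) * (b : ℂ))), ?_, ?_⟩
  · intro x
    have h : (-2 * Real.pi * Complex.I * ((x.1 : ℕ) : ℂ) * ((x.2 : ℕ) : ℂ) /
        ((a : ℂ) * (b : ℂ))) =
        ((-2 * Real.pi * (x.1 : ℕ) * (x.2 : ℕ) / (a * b) : ℝ) : ℂ) * Complex.I := by
      push_cast
      ring
    beta_reduce
    rw [h, Complex.norm_exp_ofReal_mul_I]
  · ext k l
    obtain ⟨x, rfl⟩ := e1.surjective k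
    obtain ⟨y, rfl⟩ := e.surjective l
    have h0 : (e.symm.trans e1)⁻¹ (e1 x) = e x := by
      rw [Equiv.Perm.inv_eq_iff_eq]
      simp
    rw [pm_mul_apply, h0]
    have h1 := place_apply e.toEmbedding
      ((Matrix.blockDiagonal fun _ : Fin a => dft b).submatrix Prod.swap Prod.swap *
          Matrix.diagonal (fun x : Fin a × Fin b => Complex.exp (-2 * Real.pi * Complex.I *
    ((x.1 : ℕ) : ℂ) * ((x.2 : ℕ) : ℂ) / ((a : ℂ) * (b : ℂ)))) *
          Matrix.blockDiagonal fun _ : Fin b => dft a) x y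
    rw [Equiv.coe_toEmbedding] at h1
    rw [h1, cid_prod_apply]
    have hx : ((e1 x : Fin (a * b)) : ℕ) = x.1 + a * x.2 := rfl
    have hy : ((e y : Fin (a * b)) : ℕ) = y.2 + b * y.1 := rfl
    unfold dft
    rw [hx, hy]
    have hs : ((Real.sqrt ((a * b : ℕ) : ℝ) : ℝ) : ℂ)⁻¹ =
        ((Real.sqrt (b : ℝ) : ℝ) : ℂ)⁻¹ * ((Real.sqrt (a : ℝ) : ℝ) : ℂ)⁻¹ := by
      rw [Nat.cast_mul, Real.sqrt_mul (Nat.cast_nonneg a), Complex.ofReal_mul, mul_inv, mul_comm]
    have hexp := cid_exp a b ha' hb' x.1 x.2 y.1 y.2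
    push_cast at hs hexp ⊢
    rw [hexp, hs]
    ring

end RotFourier.UP
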