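import Pool.Agent.Lib.MP_7fb13b_lc.H9.Defs

/-!
# MP_7fb13b_lc : Fourier matrices of every size in O(n log n) two-coordinate unitaries

Definitions and the algebra of placements (a matrix of size `ι` acting on the coordinates
`f i` of a bigger space `κ`).
-/

open Matrix

set_option linter.unusedSectionVars false

namespace RotFourier.UP

variable {ι ι' κ κ' : Type} [Fintype ι] [DecidableEq ι] [Fintype ι'] [DecidableEq ι']
  [Fintype κ] [DecidableEq κ] [Fintype κ'] [DecidableEq κ']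

/-- `U` is a product of at most `s` two-coordinate unitaries. -/
def Alg (s : ℕ) (U : Matrix κ κ ℂ) : Prop :=
  ∃ l : List (Matrix κ κ ℂ), (∀ R ∈ l, IsTwoCoordinate R) ∧ l.prod = U ∧ l.length ≤ s

/-- The incidence matrix of an embedding. -/
def inc (f : ι ↪ κ) : Matrix κ ι ℂ := fun k i => if k = f i then 1 else 0

/-- `U` acting on the coordinates `f i`, the identity elsewhere. -/
def place (f : ι ↪ κ) (U : Matrix ι ι ℂ) : Matrix κ κ ℂ := 1 + inc f * (U - 1) * (inc f)ᴴ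

/-- The matrix of a permutation: `pm σ` maps `e_j` to `e_(σ j)`. -/
def pm (σ : Equiv.Perm ι) : Matrix ι ι ℂ := fun i j => if i = σ j then 1 else 0

/-- The circulant matrix with eigenvalues `c`. -/
noncomputable def circ {n : ℕ} (c : Fin n → ℂ) : Matrix (Fin n) (Fin n) ℂ :=
  (dft n)ᴴ * Matrix.diagonal c * dft n

/-- `F_m` on any `m` of at least `N` coordinates is a product of at most `s` gates. -/
def Cheap (m N s : ℕ) : Prop :=
  ∀ (κ : Type) [Fintype κ] [DecidableEq κ], N ≤ Fintype.card κ → ∀ f : Fin m ↪ κ,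
    Alg s (place f (dft m))

/-- Two embeddings with disjoint ranges. -/
def Disj (f : ι ↪ κ) (g : ι' ↪ κ) : Prop := ∀ i j, f i ≠ g j

/-! ### Alg -/

lemma Alg.mono {s t : ℕ} {U : Matrix κ κ ℂ} (h : Alg s U) (hst : s ≤ t) : Alg t U := by
  obtain ⟨l, h1, h2, h3⟩ := h
  exact ⟨l, h1, h2, h3.trans hst⟩

lemma Alg.one (s : ℕ) : Alg s (1 : Matrix κ κ ℂ) := ⟨[], by simp, by simp, by simp⟩

lemma Alg.mul {s t : ℕ} {U V : Matrix κ κ ℂ} (h : Alg s U) (h' : Alg t V) :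
    Alg (s + t) (U * V) := by
  obtain ⟨l, h1, h2, h3⟩ := h
  obtain ⟨l', h1', h2', h3'⟩ := h'
  refine ⟨l ++ l', fun R hR => ?_, by simp [h2, h2'], by simp; omega⟩
  rcases List.mem_append.1 hR with h | h
  · exact h1 R h
  · exact h1' R h

lemma Alg.single {R : Matrix κ κ ℂ} (h : IsTwoCoordinate R) : Alg 1 R :=
  ⟨[R], by simpa using h, by simp, by simp⟩

lemma isTwoCoordinate_conjTranspose {R : Matrix κ κ ℂ} (h : IsTwoCoordinate R) :
    IsTwoCoordinate Rᴴ := by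
  obtain ⟨hu, i, j, hij, h⟩ := h
  refine ⟨?_, i, j, hij, fun a b hab => ?_⟩
  · rw [Matrix.mem_unitaryGroup_iff, Matrix.star_eq_conjTranspose,
      Matrix.conjTranspose_conjTranspose, ← Matrix.star_eq_conjTranspose]
    exact Matrix.mem_unitaryGroup_iff'.1 hu
  · rw [Matrix.conjTranspose_apply, h b a (fun hc => hab ⟨hc.2, hc.1⟩)]
    by_cases hab' : a = b
    · subst hab'; simp
    · rw [Matrix.one_apply_ne hab', Matrix.one_apply_ne (Ne.symm hab')]; simp

lemma Alg.conj {s : ℕ} {U : Matrix κ κ ℂ} (h : Alg s U) : Alg s Uᴴ := by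
  obtain ⟨l, h1, h2, h3⟩ := h
  refine ⟨(l.map fun R => Rᴴ).reverse, ?_, ?_, by simpa using h3⟩
  · intro R hR
    simp only [List.mem_reverse, List.mem_map] at hR
    obtain ⟨S, hS, rfl⟩ := hR
    exact isTwoCoordinate_conjTranspose (h1 S hS)
  · rw [← h2]
    clear h1 h2 h3
    induction l with
    | nil => simp
    | cons a l ih => simp [Matrix.conjTranspose_mul, ih]

lemma Alg.unitary {s : ℕ} {U : Matrix κ κ ℂ} (h : Alg s U) : U ∈ Matrix.unitaryGroup κ ℂ := by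
  obtain ⟨l, h1, h2, -⟩ := h
  rw [← h2]
  exact list_prod_mem fun R hR => (h1 R hR).1

/-! ### Placements -/

lemma inc_conj_mul_inc (f : ι ↪ κ) : (inc f)ᴴ * inc f = (1 : Matrix ι ι ℂ) := by
  ext i j
  rw [Matrix.mul_apply]
  simp only [inc, Matrix.conjTranspose_apply]
  by_cases h : i = j
  · subst h
    rw [Finset.sum_eq_single (f i)] <;> simp +contextual
  · rw [Matrix.one_apply_ne h]
    apply Finset.sum_eq_zero
    intro k _
    by_cases hk : k = f i
    · have : k ≠ f j := fun h' => h (f.injective (hk.symm.trans h'))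
      simp [this]
    · simp [hk]

lemma inc_conj_mul_inc_of_disj {f : ι ↪ κ} {g : ι' ↪ κ} (h : Disj f g) :
    (inc f)ᴴ * inc g = (0 : Matrix ι ι' ℂ) := by
  ext i j
  rw [Matrix.mul_apply]
  simp only [inc, Matrix.conjTranspose_apply, Matrix.zero_apply]
  apply Finset.sum_eq_zero
  intro k _
  by_cases hk : k = f i
  · have : k ≠ g j := fun h' => h i j (hk.symm.trans h')
    simp [this]
  · simp [hk]

lemma Disj.symm {f : ι ↪ κ} {g : ι' ↪ κ} (h : Disj f g) : Disj g f :=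
  fun j i hh => h i j hh.symm

@[simp] lemma place_one (f : ι ↪ κ) : place f (1 : Matrix ι ι ℂ) = 1 := by simp [place]

lemma place_mul (f : ι ↪ κ) (U V : Matrix ι ι ℂ) : place f (U * V) = place f U * place f V := by
  unfold place
  have h := inc_conj_mul_inc f
  calc 1 + inc f * (U * V - 1) * (inc f)ᴴ
      = 1 + inc f * (V - 1) * (inc f)ᴴ + inc f * (U - 1) * (inc f)ᴴ +
        inc f * (U - 1) * (1 * (V - 1)) * (inc f)ᴴ := by
        simp only [Matrix.mul_sub, Matrix.sub_mul, Matrix.mul_one, Matrix.one_mul, Matrix.mul_assoc]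
        abel
    _ = (1 + inc f * (U - 1) * (inc f)ᴴ) * (1 + inc f * (V - 1) * (inc f)ᴴ) := by
        rw [← h]
        simp only [Matrix.mul_add, Matrix.add_mul, Matrix.mul_one, Matrix.one_mul,
          Matrix.mul_assoc]
        abel

lemma place_conj (f : ι ↪ κ) (U : Matrix ι ι ℂ) : place f Uᴴ = (place f U)ᴴ := by
  unfold place
  simp [Matrix.conjTranspose_mul, Matrix.mul_assoc]

lemma inc_trans (f : ι ↪ κ) (g : κ ↪ κ') : inc (f.trans g) = inc g * inc f := by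
  ext k i
  rw [Matrix.mul_apply]
  simp only [inc, Function.Embedding.trans_apply]
  rw [Finset.sum_eq_single (f i)]
  · simp
  · intro b _ hb
    simp [hb]
  · simp

lemma place_trans (f : ι ↪ κ) (g : κ ↪ κ') (U : Matrix ι ι ℂ) :
    place (f.trans g) U = place g (place f U) := by
  unfold place
  rw [inc_trans, Matrix.conjTranspose_mul]
  simp only [add_sub_cancel_left, Matrix.mul_assoc]

lemma place_mul_place_of_disj {f : ι ↪ κ} {g : ι' ↪ κ} (h : Disj f g) (U : Matrix ι ι ℂ)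
    (V : Matrix ι' ι' ℂ) :
    place f U * place g V = 1 + inc f * (U - 1) * (inc f)ᴴ + inc g * (V - 1) * (inc g)ᴴ := by
  unfold place
  have h0 := inc_conj_mul_inc_of_disj h
  have : inc f * (U - 1) * (inc f)ᴴ * (inc g * (V - 1) * (inc g)ᴴ) = 0 := by
    calc inc f * (U - 1) * (inc f)ᴴ * (inc g * (V - 1) * (inc g)ᴴ)
        = inc f * (U - 1) * ((inc f)ᴴ * inc g) * ((V - 1) * (inc g)ᴴ) := by
          simp only [Matrix.mul_assoc]
      _ = 0 := by rw [h0]; simp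
  rw [Matrix.mul_add, Matrix.mul_one, Matrix.add_mul, Matrix.one_mul, this]
  abel

/-- Placements with disjoint ranges commute. -/
lemma place_comm {f : ι ↪ κ} {g : ι' ↪ κ} (h : Disj f g) (U : Matrix ι ι ℂ)
    (V : Matrix ι' ι' ℂ) : place f U * place g V = place g V * place f U := by
  rw [place_mul_place_of_disj h, place_mul_place_of_disj h.symm]
  abel

lemma inc_mul_apply (f : ι ↪ κ) (g : ι' ↪ κ) (A : Matrix ι ι' ℂ) (i : ι) (j : ι') :
    (inc f * A * (inc g)ᴴ) (f i) (g j) = A i j := by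
  rw [Matrix.mul_apply, Finset.sum_eq_single j]
  · rw [Matrix.mul_apply, Finset.sum_eq_single i]
    · simp [inc]
    · intro b _ hb
      simp [inc, (f.injective.ne hb).symm]
    · simp
  · intro b _ hb
    simp [inc, (g.injective.ne hb).symm]
  · simp

lemma inc_mul_apply_left (f : ι ↪ κ) (A : Matrix ι κ' ℂ) (k : κ) (hk : ∀ i, k ≠ f i) (l : κ') :
    (inc f * A) k l = 0 := by
  rw [Matrix.mul_apply]
  exact Finset.sum_eq_zero fun i _ => by simp [inc, hk i]

lemma inc_mul_apply_right (f : ι ↪ κ) (A : Matrix κ' ι ℂ) (k : κ) (hk : ∀ i, k ≠ f i) (l : κ') :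
    (A * (inc f)ᴴ) l k = 0 := by
  rw [Matrix.mul_apply]
  exact Finset.sum_eq_zero fun i _ => by simp [inc, hk i]

lemma place_apply (f : ι ↪ κ) (U : Matrix ι ι ℂ) (i j : ι) : place f U (f i) (f j) = U i j := by
  unfold place
  rw [Matrix.add_apply, inc_mul_apply]
  by_cases h : i = j
  · subst h; simp
  · rw [Matrix.one_apply_ne (f.injective.ne h), Matrix.sub_apply, Matrix.one_apply_ne h]; simp

lemma place_apply_left (f : ι ↪ κ) (U : Matrix ι ι ℂ) (k l : κ) (hk : ∀ i, k ≠ f i) :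
    place f U k l = (1 : Matrix κ κ ℂ) k l := by
  unfold place
  rw [Matrix.add_apply, Matrix.mul_assoc, inc_mul_apply_left f _ k hk, add_zero]

lemma place_apply_right (f : ι ↪ κ) (U : Matrix ι ι ℂ) (k l : κ) (hl : ∀ i, l ≠ f i) :
    place f U k l = (1 : Matrix κ κ ℂ) k l := by
  unfold place
  rw [Matrix.add_apply, inc_mul_apply_right f _ l hl, add_zero]

/-- A matrix is a placement if it has the right entries. -/
lemma eq_place {f : ι ↪ κ} {U : Matrix ι ι ℂ} {A : Matrix κ κ ℂ}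
    (h1 : ∀ i j, A (f i) (f j) = U i j) (h2 : ∀ k l, (∀ i, k ≠ f i) → A k l = (1 : Matrix κ κ ℂ) k l)
    (h3 : ∀ k l, (∀ i, l ≠ f i) → A k l = (1 : Matrix κ κ ℂ) k l) : A = place f U := by
  ext k l
  by_cases hk : ∀ i, k ≠ f i
  · rw [h2 k l hk, place_apply_left f U k l hk]
  · by_cases hl : ∀ i, l ≠ f i
    · rw [h3 k l hl, place_apply_right f U k l hl]
    · push Not at hk hl
      obtain ⟨i, rfl⟩ := hk
      obtain ⟨j, rfl⟩ := hl
      rw [h1, place_apply]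

lemma place_mem_unitary (f : ι ↪ κ) {U : Matrix ι ι ℂ} (h : U ∈ Matrix.unitaryGroup ι ℂ) :
    place f U ∈ Matrix.unitaryGroup κ ℂ := by
  rw [Matrix.mem_unitaryGroup_iff, Matrix.star_eq_conjTranspose, ← place_conj, ← place_mul,
    ← Matrix.star_eq_conjTranspose, Matrix.mem_unitaryGroup_iff.1 h, place_one]

lemma isTwoCoordinate_place (f : ι ↪ κ) {R : Matrix ι ι ℂ} (h : IsTwoCoordinate R) :
    IsTwoCoordinate (place f R) := by
  obtain ⟨hu, i, j, hij, h⟩ := h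
  refine ⟨place_mem_unitary f hu, f i, f j, f.injective.ne hij, fun a b hab => ?_⟩
  by_cases hk : ∀ x, a ≠ f x
  · exact place_apply_left f R a b hk
  · by_cases hl : ∀ x, b ≠ f x
    · exact place_apply_right f R a b hl
    · push Not at hk hl
      obtain ⟨x, rfl⟩ := hk
      obtain ⟨y, rfl⟩ := hl
      rw [place_apply]
      simp only [f.injective.eq_iff] at hab
      rw [h x y hab]
      by_cases hxy : x = y
      · subst hxy; simp
      · rw [Matrix.one_apply_ne hxy, Matrix.one_apply_ne (f.injective.ne hxy)]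

lemma Alg.place {s : ℕ} {U : Matrix ι ι ℂ} (h : Alg s U) (f : ι ↪ κ) : Alg s (place f U) := by
  obtain ⟨l, h1, h2, h3⟩ := h
  refine ⟨l.map (UP.place f), ?_, ?_, by simpa using h3⟩
  · intro R hR
    simp only [List.mem_map] at hR
    obtain ⟨S, hS, rfl⟩ := hR
    exact isTwoCoordinate_place f (h1 S hS)
  · rw [← h2]
    clear h1 h2 h3
    induction l with
    | nil => simp
    | cons a l ih => simp [place_mul, ih]

lemma place_refl (U : Matrix κ κ ℂ) : place (Function.Embedding.refl κ) U = U := by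
  refine (eq_place (fun i j => rfl) (fun k l h => absurd rfl (h k)) fun k l h =>
    absurd rfl (h l)).symm

/-! ### Permutation matrices -/

lemma pm_mul (σ τ : Equiv.Perm ι) : pm (σ * τ) = pm σ * pm τ := by
  ext i j
  rw [Matrix.mul_apply, Finset.sum_eq_single (τ j)]
  · unfold pm
    rw [if_pos rfl, mul_one, Equiv.Perm.mul_apply]
  · intro b _ hb
    simp [pm, hb]
  · simp

@[simp] lemma pm_one : pm (1 : Equiv.Perm ι) = 1 := by
  ext i j
  rw [Matrix.one_apply]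
  rfl

lemma pm_conj (σ : Equiv.Perm ι) : (pm σ)ᴴ = pm σ⁻¹ := by
  ext i j
  simp only [pm, Matrix.conjTranspose_apply]
  by_cases h : j = σ i
  · subst h; simp
  · have : i ≠ σ⁻¹ j := fun h' => h (by rw [h']; simp)
    rw [if_neg h, if_neg this, star_zero]

lemma pm_mul_apply (σ : Equiv.Perm ι) (A : Matrix ι κ ℂ) (i : ι) (j : κ) :
    (pm σ * A) i j = A (σ⁻¹ i) j := by
  rw [Matrix.mul_apply, Finset.sum_eq_single (σ⁻¹ i)]
  · simp [pm]
  · intro b _ hb
    have : i ≠ σ b := fun h' => hb (by rw [h']; simp)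
    simp [pm, this]
  · simp

lemma mul_pm_apply (σ : Equiv.Perm ι) (A : Matrix κ ι ℂ) (i : κ) (j : ι) :
    (A * pm σ) i j = A i (σ j) := by
  rw [Matrix.mul_apply, Finset.sum_eq_single (σ j)]
  · simp [pm]
  · intro b _ hb
    simp [pm, hb]
  · simp

lemma dft_mem_unitary {n : ℕ} (hn : 0 < n) : dft n ∈ Matrix.unitaryGroup (Fin n) ℂ := by
  rw [Matrix.mem_unitaryGroup_iff, Matrix.star_eq_conjTranspose, dft_mul_conjTranspose hn]

/-! ### The statements of the rows -/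

/-- DIAG. -/
def DiagStatement : Prop :=
  ∀ (ι κ : Type) [Fintype ι] [DecidableEq ι] [Fintype κ] [DecidableEq κ] (f : ι ↪ κ) (d : ι → ℂ),
    2 ≤ Fintype.card κ → (∀ i, ‖d i‖ = 1) →
      Alg (Fintype.card ι) (place f (Matrix.diagonal d))

/-- PERM. -/
def PermStatement : Prop :=
  ∀ (ι κ : Type) [Fintype ι] [DecidableEq ι] [Fintype κ] [DecidableEq κ] (f : ι ↪ κ)
    (σ : Equiv.Perm ι), Alg (Fintype.card ι) (place f (pm σ))

/-- BLK: block diagonal matrices. -/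
def BlkStatement : Prop :=
  ∀ (ι o κ : Type) [Fintype ι] [DecidableEq ι] [Fintype o] [DecidableEq o] [Fintype κ]
    [DecidableEq κ] (g : ι × o ↪ κ) (U : o → Matrix ι ι ℂ) (s : ℕ),
    (∀ (j : o) (h : ι ↪ κ), (∀ i, h i = g (i, j)) → Alg s (place h (U j))) →
      Alg (Fintype.card o * s) (place g (Matrix.blockDiagonal U))

/-- TWO: gates on the pairs `(inl k, inr k)`. -/
def TwoStatement : Prop :=
  ∀ (n : ℕ) (a b c d : Fin n → ℂ),
    (∀ k, (!![a k, b k; c k, d k] : Matrix (Fin 2) (Fin 2) ℂ) ∈ Matrix.unitaryGroup (Fin 2) ℂ) →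
      Alg n (Matrix.fromBlocks (Matrix.diagonal a) (Matrix.diagonal b) (Matrix.diagonal c)
        (Matrix.diagonal d) : Matrix (Fin n ⊕ Fin n) (Fin n ⊕ Fin n) ℂ)

/-- CID: the matrix identity of Cooley and Tukey. -/
def CidStatement : Prop :=
  ∀ a b : ℕ, 0 < a → 0 < b →
    ∃ (e : Fin a × Fin b ≃ Fin (a * b)) (σ : Equiv.Perm (Fin (a * b)))
      (tw : Fin a × Fin b → ℂ), (∀ x, ‖tw x‖ = 1) ∧
      dft (a * b) = pm σ * place e.toEmbedding
        ((Matrix.blockDiagonal fun _ : Fin a => dft b).submatrix Prod.swap Prod.swap *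
          Matrix.diagonal tw * Matrix.blockDiagonal fun _ : Fin b => dft a)

/-- CT: Cooley and Tukey. -/
def CTStatement : Prop :=
  ∀ a b N s t : ℕ, 0 < a → 0 < b → 2 ≤ N → Cheap a N s → Cheap b N t →
    Cheap (a * b) N (b * s + a * t + 2 * (a * b))

/-- RID: the matrix identity of Rader. -/
def RidStatement : Prop :=
  ∀ p : ℕ, p.Prime → 3 ≤ p →
    ∃ (σ τ : Equiv.Perm (Fin p)) (h : Fin (p - 1) ↪ Fin p) (i j : Fin p)
      (B : Matrix (Fin p) (Fin p) ℂ), i ≠ j ∧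
      (∀ k l, k ≠ l → ¬ ((k = i ∧ l = j) ∨ (k = j ∧ l = i)) → B k l = 0) ∧
      dft p = pm σ * (place h (dft (p - 1)))ᴴ * B * place h (dft (p - 1)) * pm τ

/-- RAD: Rader. -/
def RadStatement : Prop :=
  ∀ p N s : ℕ, p.Prime → 3 ≤ p → 2 ≤ N → Cheap (p - 1) N s → Cheap p N (2 * s + 4 * p)

/-- DIL: a dilation of a contractive circulant matrix. -/
def DilStatement : Prop :=
  ∀ (N s : ℕ) (lam : Fin N → ℂ), 0 < N → Cheap N (2 * N) s → (∀ k, ‖lam k‖ ≤ 1) →
    ∃ W : Matrix (Fin N ⊕ Fin N) (Fin N ⊕ Fin N) ℂ,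
      (∀ x y, W (Sum.inl x) (Sum.inl y) = circ lam x y) ∧ Alg (2 * s + N) W

/-- AMP: exact amplitude amplification. -/
def AmpStatement : Prop :=
  ∀ (ι κ : Type) [Fintype ι] [DecidableEq ι] [Fintype κ] [DecidableEq κ] (e : ι ↪ κ)
    (W : Matrix κ κ ℂ) (U : Matrix ι ι ℂ) (s : ℕ) (β : ℝ), 2 ≤ Fintype.card κ →
    U ∈ Matrix.unitaryGroup ι ℂ → 3 * β - 4 * β ^ 3 = 1 / 2 →
    (∀ x y, W (e x) (e y) = (β : ℂ) * U x y) → Alg s W →
      ∃ A : Matrix κ κ ℂ, (∀ x y, A (e x) (e y) = U x y) ∧ Alg (9 * s + 8 * Fintype.card κ) A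

/-- SPL: a unitary matrix with a unitary corner splits. -/
def SplStatement : Prop :=
  ∀ (ι ι' κ : Type) [Fintype ι] [DecidableEq ι] [Fintype ι'] [DecidableEq ι'] [Fintype κ]
    [DecidableEq κ] (e : ι ↪ κ) (e' : ι' ↪ κ) (A : Matrix κ κ ℂ) (U : Matrix ι ι ℂ),
    Disj e e' → (∀ k, (∃ i, k = e i) ∨ ∃ i, k = e' i) → U ∈ Matrix.unitaryGroup ι ℂ →
    A ∈ Matrix.unitaryGroup κ ℂ → (∀ x y, A (e x) (e y) = U x y) →
      ∃ A' : Matrix ι' ι' ℂ, A' ∈ Matrix.unitaryGroup ι' ℂ ∧ A = place e U * place e' A'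

/-- The kernel of `circ c`. -/
noncomputable def ker {m : ℕ} (c : Fin m → ℂ) (t : ℤ) : ℂ :=
  (m : ℂ)⁻¹ * ∑ k : Fin m, c k * Complex.exp (2 * Real.pi * Complex.I * (k : ℕ) * t / m)

/-- The Fejér type sum. -/
noncomputable def fej {m : ℕ} (c : Fin m → ℂ) (N M : ℕ) (l : ℕ) : ℂ :=
  (M : ℂ)⁻¹ * ∑ p ∈ Finset.range M, ∑ q ∈ Finset.range M, ker c ((p : ℤ) - (q : ℤ)) *
    Complex.exp (-2 * Real.pi * Complex.I * l * ((p : ℂ) - (q : ℂ)) / N)

/-- SBD: the bound of the Fejér type sums. -/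
def SbdStatement : Prop :=
  ∀ (m N r l : ℕ) (c : Fin m → ℂ), 0 < m → 0 < N → 0 < r → (∀ k, ‖c k‖ = 1) →
    ‖fej c N (r * m) l‖ ≤ r

/-- SCO: the coefficients of the Fejér type sums. -/
def ScoStatement : Prop :=
  ∀ (m N M : ℕ) (c : Fin m → ℂ) (t : ℤ), 0 < m → 0 < M → |t| < M → |t| + M ≤ N →
    (N : ℂ)⁻¹ * ∑ l ∈ Finset.range N, fej c N M l *
      Complex.exp (2 * Real.pi * Complex.I * l * t / N) = ker c t * ((M : ℂ) - (|t| : ℤ)) / M

/-- EMB: the corner of a bounded circulant matrix. -/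
def EmbStatement : Prop :=
  ∀ (m N : ℕ) (c : Fin m → ℂ) (h : m ≤ N), 0 < m → 3 * m ≤ N → (∀ k, ‖c k‖ = 1) →
    ∃ lam : Fin N → ℂ, (∀ k, ‖lam k‖ ≤ 5) ∧
      ∀ x y : Fin m, circ lam (Fin.castLE h x) (Fin.castLE h y) = circ c x y

/-- CHI: chirps. -/
def ChiStatement : Prop :=
  ∀ m : ℕ, 0 < m → Nat.Coprime m 6 →
    ∃ (σ : Equiv.Perm (Fin m)) (c d d' : Fin m → ℂ),
      (∀ k, ‖c k‖ = 1) ∧ (∀ k, ‖d k‖ = 1) ∧ (∀ k, ‖d' k‖ = 1) ∧
        dft m = Matrix.diagonal d * (pm σ * circ c * (pm σ)ᴴ * (circ c)ᴴ) * Matrix.diagonal d'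

/-- DRT: the Fourier matrix of size `m` prime to 6 with many borrowed coordinates. -/
def DrtStatement : Prop :=
  ∀ m k N s : ℕ, 0 < m → Nat.Coprime m 6 → 3 * m ≤ 2 ^ k → 2 * 2 ^ k + m ≤ N →
    Cheap (2 ^ k) (2 * 2 ^ k) s → Cheap m N (72 * s + 100 * 2 ^ k + 4 * m)

/-- REC: the recursion. -/
def RecStatement : Prop :=
  ∃ C : ℝ, ∀ n : ℕ, 2 ≤ n → ∃ s : ℕ, (s : ℝ) ≤ C * (n * Real.log n) ∧ Cheap n n s

/-- FIN: the rotated Fourier matrix. -/
def FinStatement : Prop :=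
  ∃ C : ℝ, ∀ n : ℕ, 2 ≤ n →
    (∃ s : ℕ, (s : ℝ) ≤ C * (n * Real.log n) ∧ Alg s (dft n)) ∧
    ∀ α : ℝ, ∃ s : ℕ, (s : ℝ) ≤ C * (n * Real.log n) ∧ Alg s (rotX n α)

end RotFourier.UP
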