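import Mathlib
import Pool.Agent.Lib.MP_7fb13b_lc.UP.Defs

/-!
# MP_7fb13b_lc, board UFN, row CT (Cooley and Tukey)
-/

open Matrix

namespace RotFourier.UP

theorem ct_proof (h1 : DiagStatement) (h2 : PermStatement) (h3 : BlkStatement)
    (h4 : CidStatement) : CTStatement := by
  intro a b N s t ha hb hN hCa hCb κ _ _ hκ f
  obtain ⟨e, σ, tw, htw, hdft⟩ := h4 a b ha hb
  set g : Fin a × Fin b ↪ κ := e.toEmbedding.trans f with hg
  -- the swapped block diagonal matrix
  have hsw : place g ((Matrix.blockDiagonal fun _ : Fin a => dft b).submatrix Prod.swap Prod.swap)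
      = place ((Equiv.prodComm (Fin b) (Fin a)).toEmbedding.trans g)
        (Matrix.blockDiagonal fun _ : Fin a => dft b) := by
    refine eq_place ?_ ?_ ?_
    · intro i j
      exact place_apply g _ (Prod.swap i) (Prod.swap j)
    · intro k l hk
      exact place_apply_left g _ k l (fun i h => hk (Prod.swap i) h)
    · intro k l hl
      exact place_apply_right g _ k l (fun i h => hl (Prod.swap i) h)
  have hperm : Alg (a * b) (place f (pm σ)) := by
    have := h2 (Fin (a * b)) κ f σ
    rwa [Fintype.card_fin] at this
  have hdiag : Alg (a * b) (place g (Matrix.diagonal tw)) := by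
    have := h1 (Fin a × Fin b) κ g tw (hN.trans hκ) htw
    rwa [Fintype.card_prod, Fintype.card_fin, Fintype.card_fin] at this
  have hY : Alg (b * s) (place g (Matrix.blockDiagonal fun _ : Fin b => dft a)) := by
    have := h3 (Fin a) (Fin b) κ g (fun _ => dft a) s (fun _ h _ => hCa κ hκ h)
    rwa [Fintype.card_fin] at this
  have hX : Alg (a * t) (place g
      ((Matrix.blockDiagonal fun _ : Fin a => dft b).submatrix Prod.swap Prod.swap)) := by
    rw [hsw]
    have := h3 (Fin b) (Fin a) κ ((Equiv.prodComm (Fin b) (Fin a)).toEmbedding.trans g)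
      (fun _ => dft b) t (fun _ h _ => hCb κ hκ h)
    rwa [Fintype.card_fin] at this
  have hall := hperm.mul ((hX.mul hdiag).mul hY)
  rw [hdft, place_mul, ← place_trans, place_mul, place_mul]
  refine hall.mono ?_
  ring_nf
  exact le_rfl

end RotFourier.UP
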