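import Pool.Agent.Lib.MP_7fb13b_lc.UP.Defs

/-!
# MP_7fb13b_lc, board UFN: row DIAG (helper30)
-/

open Matrix

namespace RotFourier.UP

theorem diag_mem_unitary {κ : Type} [Fintype κ] [DecidableEq κ] (d : κ → ℂ)
    (hd : ∀ i, ‖d i‖ = 1) : Matrix.diagonal d ∈ Matrix.unitaryGroup κ ℂ := by
  rw [Matrix.mem_unitaryGroup_iff, Matrix.star_eq_conjTranspose, Matrix.diagonal_conjTranspose,
    Matrix.diagonal_mul_diagonal, ← Matrix.diagonal_one]
  congr 1
  funext i
  rw [Pi.star_apply, Complex.star_def, Complex.mul_conj, Complex.normSq_eq_norm_sq, hd i]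
  simp

/-- A diagonal matrix with one nontrivial entry on the range of `f`. -/
theorem diag_gate {ι κ : Type} [Fintype ι] [DecidableEq ι] [Fintype κ] [DecidableEq κ]
    (f : ι ↪ κ) (hκ : 2 ≤ Fintype.card κ) (i : ι) (z : ℂ) (hz : ‖z‖ = 1) :
    IsTwoCoordinate (place f (Matrix.diagonal (Function.update (fun _ => (1 : ℂ)) i z))) := by
  obtain ⟨j, hj⟩ : ∃ j, j ≠ f i := Fintype.exists_ne_of_one_lt_card (by omega) (f i)
  refine ⟨place_mem_unitary f (diag_mem_unitary _ (fun k => ?_)), f i, j, hj.symm,
    fun a b hab => ?_⟩
  · by_cases h : k = i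
    · subst h
      rw [Function.update_self]
      exact hz
    · rw [Function.update_of_ne h]
      simp
  · by_cases ha : ∀ x, a ≠ f x
    · exact place_apply_left f _ a b ha
    · by_cases hb : ∀ x, b ≠ f x
      · exact place_apply_right f _ a b hb
      · push Not at ha hb
        obtain ⟨x, rfl⟩ := ha
        obtain ⟨y, rfl⟩ := hb
        rw [place_apply]
        by_cases hxy : x = y
        · subst hxy
          rw [Matrix.diagonal_apply_eq, Matrix.one_apply_eq]
          have hx : x ≠ i := fun h => hab (by subst h; exact ⟨Or.inl rfl, Or.inl rfl⟩)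
          rw [Function.update_of_ne hx]
        · rw [Matrix.diagonal_apply_ne _ hxy, Matrix.one_apply_ne (f.injective.ne hxy)]

theorem diag_ind {ι κ : Type} [Fintype ι] [DecidableEq ι] [Fintype κ] [DecidableEq κ]
    (f : ι ↪ κ) (d : ι → ℂ) (hκ : 2 ≤ Fintype.card κ) (hd : ∀ i, ‖d i‖ = 1) (s : Finset ι) :
    Alg s.card (place f (Matrix.diagonal fun i => if i ∈ s then d i else 1)) := by
  induction s using Finset.induction_on with
  | empty =>
    have h : (Matrix.diagonal fun i : ι => if i ∈ (∅ : Finset ι) then d i else 1) = 1 := by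
      simp
    rw [h, place_one]
    exact Alg.one _
  | insert a s ha ih =>
    have h : (Matrix.diagonal fun i : ι => if i ∈ insert a s then d i else 1) =
        (Matrix.diagonal fun i : ι => if i ∈ s then d i else 1) *
          Matrix.diagonal (Function.update (fun _ => (1 : ℂ)) a (d a)) := by
      rw [Matrix.diagonal_mul_diagonal]
      congr 1
      funext i
      by_cases hi : i = a
      · subst hi
        rw [if_pos (Finset.mem_insert_self i s), if_neg ha, Function.update_self, one_mul]
      · rw [Function.update_of_ne hi, mul_one]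
        by_cases his : i ∈ s
        · rw [if_pos his, if_pos (Finset.mem_insert_of_mem his)]
        · rw [if_neg his, if_neg (fun h => (Finset.mem_insert.1 h).elim hi his)]
    rw [h, place_mul, Finset.card_insert_of_notMem ha]
    exact ih.mul (Alg.single (diag_gate f hκ a (d a) (hd a)))

theorem diag_proof : DiagStatement := by
  intro ι κ _ _ _ _ f d hκ hd
  have h := diag_ind f d hκ hd Finset.univ
  simpa using h

end RotFourier.UP
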