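import Pool.Agent.Lib.MP_7fb13b_lc.UP.Defs

/-!
# Row DIL: a dilation of a contractive circulant matrix
-/

open Matrix

namespace RotFourier.UP

lemma place_inl_eq {n : ℕ} (U : Matrix (Fin n) (Fin n) ℂ) :
    (place (Function.Embedding.inl : Fin n ↪ Fin n ⊕ Fin n) U) = Matrix.fromBlocks U 0 0 1 := by
  symm
  apply eq_place
  · intro i j
    rfl
  · intro k l hk
    rcases k with k | k
    · exact absurd rfl (hk k)
    · rcases l with l | l
      · rw [Matrix.fromBlocks_apply₂₁, Matrix.one_apply_ne (by simp)]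
        rfl
      · rw [Matrix.fromBlocks_apply₂₂, Matrix.one_apply, Matrix.one_apply]
        simp only [Sum.inr.injEq]
  · intro k l hl
    rcases l with l | l
    · exact absurd rfl (hl l)
    · rcases k with k | k
      · rw [Matrix.fromBlocks_apply₁₂, Matrix.one_apply_ne (by simp)]
        rfl
      · rw [Matrix.fromBlocks_apply₂₂, Matrix.one_apply, Matrix.one_apply]
        simp only [Sum.inr.injEq]

lemma dil_gate (z : ℂ) (hz : ‖z‖ ≤ 1) :
    (!![z, -((Real.sqrt (1 - ‖z‖ ^ 2) : ℝ) : ℂ); ((Real.sqrt (1 - ‖z‖ ^ 2) : ℝ) : ℂ),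
      (starRingEnd ℂ) z] : Matrix (Fin 2) (Fin 2) ℂ) ∈ Matrix.unitaryGroup (Fin 2) ℂ := by
  have h0 : 0 ≤ 1 - ‖z‖ ^ 2 := by
    have := norm_nonneg z
    nlinarith
  have hs : ((Real.sqrt (1 - ‖z‖ ^ 2) : ℝ) : ℂ) * ((Real.sqrt (1 - ‖z‖ ^ 2) : ℝ) : ℂ) =
      1 - z * (starRingEnd ℂ) z := by
    rw [← Complex.ofReal_mul, Real.mul_self_sqrt h0, Complex.mul_conj, Complex.normSq_eq_norm_sq]
    push_cast
    ring
  rw [Matrix.mem_unitaryGroup_iff, Matrix.star_eq_conjTranspose]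
  generalize ((Real.sqrt (1 - ‖z‖ ^ 2) : ℝ)) = t at hs
  ext i j
  fin_cases i <;> fin_cases j <;>
    simp [Matrix.mul_apply, Fin.sum_univ_two, Matrix.conjTranspose_apply, Complex.conj_ofReal]
  · linear_combination hs
  · ring
  · ring
  · linear_combination hs

theorem dil_proof (h : TwoStatement) : DilStatement := by
  intro N s lam hN hF hlam
  set F := place (Function.Embedding.inl : Fin N ↪ Fin N ⊕ Fin N) (dft N) with hFdef
  set B : Matrix (Fin N ⊕ Fin N) (Fin N ⊕ Fin N) ℂ :=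
    Matrix.fromBlocks (Matrix.diagonal lam)
      (Matrix.diagonal fun k => -((Real.sqrt (1 - ‖lam k‖ ^ 2) : ℝ) : ℂ))
      (Matrix.diagonal fun k => ((Real.sqrt (1 - ‖lam k‖ ^ 2) : ℝ) : ℂ))
      (Matrix.diagonal fun k => (starRingEnd ℂ) (lam k)) with hB
  have hAF : Alg s F := hF (Fin N ⊕ Fin N) (by simp; omega) _
  have hAB : Alg N B := h N _ _ _ _ fun k => dil_gate (lam k) (hlam k)
  refine ⟨Fᴴ * B * F, ?_, ((hAF.conj.mul hAB).mul hAF).mono (by omega)⟩
  intro x y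
  rw [hFdef, place_inl_eq, Matrix.fromBlocks_conjTranspose, hB, Matrix.fromBlocks_multiply,
    Matrix.fromBlocks_multiply, Matrix.fromBlocks_apply₁₁]
  simp [circ]

end RotFourier.UP
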