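import Pool.Agent.Lib.MP_7fb13b_lc.UP.Defs

/-!
# MP_7fb13b_lc, board UFN : Fourier matrices with many borrowed coordinates (row DRT)
-/

open Matrix

set_option linter.unusedSectionVars false

namespace RotFourier.UP

variable {ι ι' κ κ' : Type} [Fintype ι] [DecidableEq ι] [Fintype ι'] [DecidableEq ι']
  [Fintype κ] [DecidableEq κ] [Fintype κ'] [DecidableEq κ']

lemma exists_beta : ∃ β : ℝ, 0 ≤ β ∧ β ≤ 1 / 5 ∧ 3 * β - 4 * β ^ 3 = 1 / 2 := by
  have hc : ContinuousOn (fun β : ℝ => 3 * β - 4 * β ^ 3) (Set.Icc 0 (1 / 5)) := by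
    fun_prop
  have h := intermediate_value_Icc (by norm_num : (0 : ℝ) ≤ 1 / 5) hc
  obtain ⟨β, hβ, h2⟩ := h (show (1 / 2 : ℝ) ∈ _ by constructor <;> norm_num)
  exact ⟨β, hβ.1, hβ.2, h2⟩

lemma circ_mem_unitary {n : ℕ} (hn : 0 < n) {c : Fin n → ℂ} (hc : ∀ k, ‖c k‖ = 1) :
    circ c ∈ Matrix.unitaryGroup (Fin n) ℂ := by
  have hF := dft_mem_unitary hn
  have hF' : (dft n)ᴴ ∈ Matrix.unitaryGroup (Fin n) ℂ := by
    rw [Matrix.mem_unitaryGroup_iff, Matrix.star_eq_conjTranspose,
      Matrix.conjTranspose_conjTranspose, conjTranspose_mul_dft hn]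
  have hD : Matrix.diagonal c ∈ Matrix.unitaryGroup (Fin n) ℂ := by
    rw [Matrix.mem_unitaryGroup_iff, Matrix.star_eq_conjTranspose, Matrix.diagonal_conjTranspose,
      Matrix.diagonal_mul_diagonal, ← Matrix.diagonal_one]
    congr 1
    ext k
    have : c k * star (c k) = ((‖c k‖ ^ 2 : ℝ) : ℂ) := by
      rw [Complex.star_def, Complex.mul_conj, Complex.normSq_eq_norm_sq]
    simp only [Pi.star_apply]
    rw [this, hc]
    simp
  exact mul_mem (mul_mem hF' hD) hF

lemma circ_smul {n : ℕ} (c : Fin n → ℂ) (b : ℂ) (x y : Fin n) :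
    circ (fun k => b * c k) x y = b * circ c x y := by
  unfold circ
  have : Matrix.diagonal (fun k => b * c k) = b • Matrix.diagonal c := by
    ext i j
    simp [Matrix.diagonal_apply]
  rw [this, Matrix.mul_smul, Matrix.smul_mul, Matrix.smul_apply, smul_eq_mul]

lemma card_range (z : ι ↪ κ) [Fintype {x : κ // ∃ i, z i = x}] :
    Fintype.card {x : κ // ∃ i, z i = x} = Fintype.card ι := by
  classical
  rw [Fintype.card_congr (Equiv.ofInjective z z.injective)]
  exact Fintype.card_congr (Equiv.subtypeEquivRight fun x => by simp)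

/-- Room for a copy and for the ancillas. -/
lemma exists_room (z : ι ↪ κ) (h : Fintype.card ι + Fintype.card ι' + Fintype.card ι ≤
    Fintype.card κ) : ∃ (y : ι ↪ κ) (w : ι' ↪ κ), Disj z y ∧ Disj z w ∧ Disj y w := by
  classical
  have hcard : Fintype.card (ι ⊕ ι') ≤ Fintype.card {x : κ // ¬ ∃ i, z i = x} := by
    rw [Fintype.card_subtype_compl, card_range z, Fintype.card_sum]
    omega
  obtain ⟨j⟩ := Function.Embedding.nonempty_of_card_le hcard
  refine ⟨⟨fun i => (j (Sum.inl i)).1, fun a b hab => ?_⟩,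
    ⟨fun i => (j (Sum.inr i)).1, fun a b hab => ?_⟩, ?_, ?_, ?_⟩
  · exact Sum.inl_injective (j.injective (Subtype.ext hab))
  · exact Sum.inr_injective (j.injective (Subtype.ext hab))
  · intro i k hk
    exact (j (Sum.inl k)).2 ⟨i, hk⟩
  · intro i k hk
    exact (j (Sum.inr k)).2 ⟨i, hk⟩
  · intro i k hk
    have := j.injective (Subtype.ext hk)
    simp at this

/-- Extend embeddings of the two parts. -/
lemma exists_glue (e : ι ↪ κ) (e' : ι' ↪ κ) (hd : Disj e e')
    (hc : ∀ k, (∃ i, k = e i) ∨ ∃ i, k = e' i) (z : ι ↪ κ') (w : ι' ↪ κ') (hzw : Disj z w) :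
    ∃ g : κ ↪ κ', e.trans g = z ∧ e'.trans g = w := by
  classical
  have hb : Function.Bijective (Sum.elim e e') := by
    constructor
    · rintro (a | a) (b | b) hab
      · exact congrArg _ (e.injective hab)
      · exact absurd hab (hd a b)
      · exact absurd hab.symm (hd b a)
      · exact congrArg _ (e'.injective hab)
    · intro k
      rcases hc k with ⟨i, hi⟩ | ⟨i, hi⟩
      · exact ⟨Sum.inl i, hi.symm⟩
      · exact ⟨Sum.inr i, hi.symm⟩
  set q := Equiv.ofBijective _ hb with hq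
  have hinj : Function.Injective (Sum.elim z w) := by
    rintro (a | a) (b | b) hab
    · exact congrArg _ (z.injective hab)
    · exact absurd hab (hzw a b)
    · exact absurd hab.symm (hzw b a)
    · exact congrArg _ (w.injective hab)
  refine ⟨q.symm.toEmbedding.trans ⟨_, hinj⟩, ?_, ?_⟩
  · ext i
    have : q.symm (e i) = Sum.inl i := by
      rw [Equiv.symm_apply_eq]; rfl
    simp [this]
  · ext i
    have : q.symm (e' i) = Sum.inr i := by
      rw [Equiv.symm_apply_eq]; rfl
    simp [this]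

/-- The pair `U + U*` with borrowed ancillas. -/
lemma pair_alg (e : ι ↪ κ) (e' : ι' ↪ κ) (hd : Disj e e')
    (hc : ∀ k, (∃ i, k = e i) ∨ ∃ i, k = e' i) {U : Matrix ι ι ℂ} {A' : Matrix ι' ι' ℂ} {t : ℕ}
    (hA' : A' ∈ Matrix.unitaryGroup ι' ℂ) (hA : Alg t (place e U * place e' A'))
    {z y : ι ↪ κ'} {w : ι' ↪ κ'} (hzw : Disj z w) (hyw : Disj y w) :
    Alg (t + t) (place z U * place y Uᴴ) := by
  obtain ⟨g, hg1, hg2⟩ := exists_glue e e' hd hc z w hzw
  obtain ⟨g', hg1', hg2'⟩ := exists_glue e e' hd hc y w hyw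
  have h1 := (hA.place g).mul ((hA.conj).place g')
  rw [place_mul, ← place_trans, ← place_trans, hg1, hg2, Matrix.conjTranspose_mul, place_mul,
    ← place_conj, ← place_conj, ← place_trans, ← place_trans, hg1', hg2'] at h1
  have h2 : place z U * place w A' * (place w A'ᴴ * place y Uᴴ) = place z U * place y Uᴴ := by
    calc place z U * place w A' * (place w A'ᴴ * place y Uᴴ)
        = place z U * (place w A' * place w A'ᴴ) * place y Uᴴ := by
          simp only [Matrix.mul_assoc]
      _ = _ := by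
        rw [← place_mul, ← Matrix.star_eq_conjTranspose, Matrix.mem_unitaryGroup_iff.1 hA',
          place_one, Matrix.mul_one]
  rwa [h2] at h1

theorem drt_proof (hD : DiagStatement) (hP : PermStatement) (hDil : DilStatement)
    (hA : AmpStatement) (hS : SplStatement) (hE : EmbStatement) (hC : ChiStatement) :
    DrtStatement := by
  intro m k N s hm hco hk hN hch κ _ _ hκ z
  obtain ⟨σ, c, d, d', hc, hd, hd', hF⟩ := hC m hm hco
  obtain ⟨β, hβ0, hβ1, hβ⟩ := exists_beta
  have hle : m ≤ 2 ^ k := by omega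
  obtain ⟨lam, hl5, hlc⟩ := hE m (2 ^ k) c hle hm hk hc
  obtain ⟨W, hW, hWs⟩ := hDil (2 ^ k) s (fun i => (β : ℂ) * lam i) (by positivity) hch (by
    intro i
    rw [norm_mul, Complex.norm_real, Real.norm_eq_abs, abs_of_nonneg hβ0]
    nlinarith [hl5 i, norm_nonneg (lam i)])
  set T := circ c with hT
  have hTu : T ∈ Matrix.unitaryGroup (Fin m) ℂ := circ_mem_unitary hm hc
  -- the embedding of the corner
  set e : Fin m ↪ Fin (2 ^ k) ⊕ Fin (2 ^ k) :=
    (Fin.castLEEmb hle).trans Function.Embedding.inl with he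
  have hcardK : Fintype.card (Fin (2 ^ k) ⊕ Fin (2 ^ k)) = 2 * 2 ^ k := by
    rw [Fintype.card_sum, Fintype.card_fin]; ring
  obtain ⟨A, hA1, hA2⟩ := hA (Fin m) (Fin (2 ^ k) ⊕ Fin (2 ^ k)) e W T (2 * s + 2 ^ k) β
    (by rw [hcardK]; have := Nat.one_le_two_pow (n := k); omega) hTu hβ (by
      intro x y
      have := hW (Fin.castLE hle x) (Fin.castLE hle y)
      rw [circ_smul, hlc] at this
      exact this) hWs
  have hAs : Alg (18 * s + 25 * 2 ^ k) A := hA2.mono (by rw [hcardK]; ring_nf; rfl)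
  classical
  set e' : {x : Fin (2 ^ k) ⊕ Fin (2 ^ k) // ¬ ∃ i, e i = x} ↪ Fin (2 ^ k) ⊕ Fin (2 ^ k) :=
    Function.Embedding.subtype _ with he'
  have hdisj : Disj e e' := fun i j h => j.2 ⟨i, h⟩
  have hcov : ∀ k, (∃ i, k = e i) ∨ ∃ i, k = e' i := by
    intro x
    by_cases hx : ∃ i, e i = x
    · obtain ⟨i, hi⟩ := hx
      exact Or.inl ⟨i, hi.symm⟩
    · exact Or.inr ⟨⟨x, hx⟩, rfl⟩
  obtain ⟨A', hA'u, hAA'⟩ := hS (Fin m) _ _ e e' A T hdisj hcov hTu hA2.unitary hA1
  rw [hAA'] at hAs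
  -- the room
  have hcard' : Fintype.card {x : Fin (2 ^ k) ⊕ Fin (2 ^ k) // ¬ ∃ i, e i = x} =
      2 * 2 ^ k - m := by
    rw [Fintype.card_subtype_compl, card_range e, hcardK, Fintype.card_fin]
  obtain ⟨y, w, hzy, hzw, hyw⟩ := exists_room (ι' := {x : Fin (2 ^ k) ⊕ Fin (2 ^ k) //
    ¬ ∃ i, e i = x}) z (by rw [hcard', Fintype.card_fin]; omega)
  have hpair := pair_alg e e' hdisj hcov hA'u hAs hzw hyw
  have hpair' := hpair.conj
  rw [Matrix.conjTranspose_mul, ← place_conj, ← place_conj, Matrix.conjTranspose_conjTranspose,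
    ← place_comm hzy] at hpair'
  have hcard2 : 2 ≤ Fintype.card κ := by
    have := Nat.one_le_two_pow (n := k); omega
  have hd1 := hD (Fin m) κ z d hcard2 hd
  have hd2 := hD (Fin m) κ z d' hcard2 hd'
  have hp := hP (Fin m) κ z σ
  rw [Fintype.card_fin] at hd1 hd2 hp
  have hall := (hd1.mul (((hp.mul hpair).mul hp.conj).mul hpair')).mul hd2
  have hyy : place y Tᴴ * place y T = 1 := by
    rw [← place_mul, ← Matrix.star_eq_conjTranspose, Matrix.mem_unitaryGroup_iff'.1 hTu, place_one]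
  have heq : place z (dft m) = place z (Matrix.diagonal d) *
      (place z (pm σ) * (place z T * place y Tᴴ) * (place z (pm σ))ᴴ *
        (place z Tᴴ * place y T)) * place z (Matrix.diagonal d') := by
    rw [hF, place_mul, place_mul, place_mul, place_mul, place_mul, place_conj z (pm σ)]
    congr 2
    have h1 : place y Tᴴ * (place z (pm σ))ᴴ = (place z (pm σ))ᴴ * place y Tᴴ := by
      rw [← place_conj]
      exact (place_comm hzy _ _).symm
    have h2 : place y Tᴴ * place z Tᴴ = place z Tᴴ * place y Tᴴ := (place_comm hzy _ _).symm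
    calc place z (pm σ) * place z T * (place z (pm σ))ᴴ * place z Tᴴ
        = place z (pm σ) * place z T * (place z (pm σ))ᴴ * place z Tᴴ *
          (place y Tᴴ * place y T) := by rw [hyy, Matrix.mul_one]
      _ = place z (pm σ) * place z T * (place z (pm σ))ᴴ * (place z Tᴴ *
          place y Tᴴ) * place y T := by simp only [Matrix.mul_assoc]
      _ = place z (pm σ) * place z T * ((place z (pm σ))ᴴ * place y Tᴴ) * place z Tᴴ *
          place y T := by rw [← h2]; simp only [Matrix.mul_assoc]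
      _ = _ := by rw [← h1]; simp only [Matrix.mul_assoc]
  rw [heq]
  exact hall.mono (by ring_nf; omega)

end RotFourier.UP
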