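import Pool.Agent.Lib.MP_7fb13b_lc.UP.Defs

/-!
# Row EMB: the corner of a bounded circulant matrix
-/

open Matrix

namespace RotFourier.UP

lemma circ_apply_ker {m : ℕ} (c : Fin m → ℂ) (x y : Fin m) :
    circ c x y = ker c (((x : ℕ) : ℤ) - ((y : ℕ) : ℤ)) := by
  unfold circ ker
  rw [Matrix.mul_apply, Finset.mul_sum]
  refine Finset.sum_congr rfl fun k _ => ?_
  rw [Matrix.mul_diagonal, Matrix.conjTranspose_apply]
  unfold dft
  rw [Complex.star_def, map_mul, map_inv₀, Complex.conj_ofReal, ← Complex.exp_conj]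
  have e1 : (starRingEnd ℂ) (-2 * Real.pi * Complex.I * ((k : ℕ) : ℂ) * ((x : ℕ) : ℂ) / (m : ℂ))
      = 2 * Real.pi * Complex.I * ((k : ℕ) : ℂ) * ((x : ℕ) : ℂ) / (m : ℂ) := by
    simp only [map_div₀, map_mul, map_neg, Complex.conj_ofReal, Complex.conj_I,
      Complex.conj_natCast, Complex.conj_ofNat]
    ring
  rw [e1]
  have e2 : (((Real.sqrt m : ℝ) : ℂ))⁻¹ * (((Real.sqrt m : ℝ) : ℂ))⁻¹ = (m : ℂ)⁻¹ := by
    rw [← mul_inv, ← Complex.ofReal_mul, Real.mul_self_sqrt (Nat.cast_nonneg m)]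
    simp
  have e3 : Complex.exp (2 * Real.pi * Complex.I * ((k : ℕ) : ℂ) *
        ((((x : ℕ) : ℤ) - ((y : ℕ) : ℤ) : ℤ) : ℂ) / (m : ℂ)) =
      Complex.exp (2 * Real.pi * Complex.I * ((k : ℕ) : ℂ) * ((x : ℕ) : ℂ) / (m : ℂ)) *
      Complex.exp (-2 * Real.pi * Complex.I * ((k : ℕ) : ℂ) * ((y : ℕ) : ℂ) / (m : ℂ)) := by
    rw [← Complex.exp_add]
    congr 1
    push_cast
    ring
  rw [e3, ← e2]
  ring

theorem emb_proof (h1 : SbdStatement) (h2 : ScoStatement) : EmbStatement := by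
  intro m N c h hm hN hc
  have hN0 : 0 < N := by omega
  refine ⟨fun l => 2 * fej c N (2 * m) l - fej c N (1 * m) l, ?_, ?_⟩
  · intro k
    have ha := h1 m N 2 k c hm hN0 (by norm_num) hc
    have hb := h1 m N 1 k c hm hN0 (by norm_num) hc
    calc ‖2 * fej c N (2 * m) k - fej c N (1 * m) k‖
        ≤ ‖2 * fej c N (2 * m) k‖ + ‖fej c N (1 * m) k‖ := norm_sub_le _ _
      _ = 2 * ‖fej c N (2 * m) k‖ + ‖fej c N (1 * m) k‖ := by
          rw [norm_mul, Complex.norm_ofNat]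
      _ ≤ 5 := by
          push_cast at ha hb
          linarith
  · intro x y
    rw [circ_apply_ker, circ_apply_ker]
    have hx := x.isLt
    have hy := y.isLt
    have ht : |((x : ℕ) : ℤ) - ((y : ℕ) : ℤ)| < (m : ℤ) := by
      rw [abs_lt]
      constructor <;> omega
    have hv : (((Fin.castLE h x : Fin N) : ℕ) : ℤ) - (((Fin.castLE h y : Fin N) : ℕ) : ℤ) =
        ((x : ℕ) : ℤ) - ((y : ℕ) : ℤ) := by simp
    rw [hv]
    generalize ((x : ℕ) : ℤ) - ((y : ℕ) : ℤ) = t at ht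
    have hA := h2 m N (2 * m) c t hm (by omega) (by push_cast; omega) (by push_cast; omega)
    have hB := h2 m N (1 * m) c t hm (by omega) (by push_cast; omega) (by push_cast; omega)
    have hm' : (m : ℂ) ≠ 0 := by exact_mod_cast hm.ne'
    have e : ker (fun l : Fin N => 2 * fej c N (2 * m) l - fej c N (1 * m) l) t =
        2 * ((N : ℂ)⁻¹ * ∑ l ∈ Finset.range N, fej c N (2 * m) l *
          Complex.exp (2 * Real.pi * Complex.I * l * t / N)) -
        (N : ℂ)⁻¹ * ∑ l ∈ Finset.range N, fej c N (1 * m) l *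
          Complex.exp (2 * Real.pi * Complex.I * l * t / N) := by
      unfold ker
      rw [Fin.sum_univ_eq_sum_range (fun l : ℕ => (2 * fej c N (2 * m) l - fej c N (1 * m) l) *
        Complex.exp (2 * Real.pi * Complex.I * (l : ℕ) * t / N)) N]
      rw [Finset.mul_sum, Finset.mul_sum, Finset.mul_sum, Finset.mul_sum,
        ← Finset.sum_sub_distrib]
      refine Finset.sum_congr rfl fun l _ => ?_
      ring
    rw [e, hA, hB]
    push_cast
    field_simp
    ring

end RotFourier.UP
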