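import Pool.Agent.Lib.MP_7fb13b_lc.UP.Defs

/-!
# MP_7fb13b_lc, board UFN : from the Fourier matrix to the rotated Fourier matrix (row FIN)
-/

open Matrix

set_option linter.unusedSectionVars false

namespace RotFourier.UP

lemma place_inr {n : ℕ} (U : Matrix (Fin n) (Fin n) ℂ) :
    place (Function.Embedding.inr : Fin n ↪ Fin n ⊕ Fin n) U = Matrix.fromBlocks 1 0 0 U := by
  symm
  apply eq_place
  · intro i j
    simp
  · rintro (k | k) (l | l) h
    · simp only [Matrix.fromBlocks_apply₁₁]
      by_cases hkl : k = l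
      · subst hkl; simp
      · rw [Matrix.one_apply_ne hkl, Matrix.one_apply_ne (by simpa using hkl)]
    · simp
    · exact absurd rfl (h k)
    · exact absurd rfl (h k)
  · rintro (k | k) (l | l) h
    · simp only [Matrix.fromBlocks_apply₁₁]
      by_cases hkl : k = l
      · subst hkl; simp
      · rw [Matrix.one_apply_ne hkl, Matrix.one_apply_ne (by simpa using hkl)]
    · exact absurd rfl (h l)
    · simp
    · exact absurd rfl (h l)

lemma rotX_eq {n : ℕ} (hn : 0 < n) (α : ℝ) :
    rotX n α = (Matrix.fromBlocks 1 0 0 (dft n))ᴴ *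
      Matrix.fromBlocks (Matrix.diagonal fun _ => ((Real.cos α : ℝ) : ℂ))
        (Matrix.diagonal fun _ => ((Real.sin α : ℝ) : ℂ))
        (Matrix.diagonal fun _ => (((-Real.sin α : ℝ)) : ℂ))
        (Matrix.diagonal fun _ => ((Real.cos α : ℝ) : ℂ)) * Matrix.fromBlocks 1 0 0 (dft n) := by
  have hd : ∀ c : ℂ, (Matrix.diagonal fun _ : Fin n => c) = c • (1 : Matrix (Fin n) (Fin n) ℂ) := by
    intro c
    ext i j
    simp [Matrix.diagonal_apply, Matrix.one_apply]
  simp only [hd]
  rw [Matrix.fromBlocks_conjTranspose, Matrix.fromBlocks_multiply, Matrix.fromBlocks_multiply]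
  simp only [Matrix.conjTranspose_one, Matrix.conjTranspose_zero, Matrix.mul_one,
    Matrix.mul_zero, add_zero, zero_add, Matrix.mul_smul]
  unfold rotX rotG
  rw [← Matrix.fromBlocks_one, Matrix.fromBlocks_smul, Matrix.fromBlocks_smul,
    Matrix.fromBlocks_add]
  simp [conjTranspose_mul_dft hn]

theorem fin_proof (hT : TwoStatement) (hR : RecStatement) : FinStatement := by
  obtain ⟨C, hC⟩ := hR
  have hC' : ∀ n : ℕ, 2 ≤ n → (n : ℝ) ≤ 2 * (n * Real.log n) := by
    intro n hn
    have h2 : Real.log 2 ≤ Real.log n := Real.log_le_log (by norm_num) (by exact_mod_cast hn)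
    have h3 := Real.log_two_gt_d9
    have hn0 : (0 : ℝ) ≤ n := Nat.cast_nonneg n
    nlinarith
  refine ⟨2 * |C| + 2, fun n hn => ?_⟩
  obtain ⟨s, hs, hch⟩ := hC n hn
  have hpos : (0 : ℝ) ≤ n * Real.log n :=
    mul_nonneg (Nat.cast_nonneg n) (Real.log_natCast_nonneg n)
  have hs' : (s : ℝ) ≤ |C| * (n * Real.log n) :=
    hs.trans (mul_le_mul_of_nonneg_right (le_abs_self C) hpos)
  have hC0 := abs_nonneg C
  refine ⟨⟨s, hs'.trans (mul_le_mul_of_nonneg_right (by linarith) hpos), ?_⟩, fun α => ?_⟩
  · have := hch (Fin n) (by simp) (Function.Embedding.refl _)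
    rwa [place_refl] at this
  · refine ⟨2 * s + n, ?_, ?_⟩
    · push_cast
      have := hC' n hn
      nlinarith
    · have h1 := hch (Fin n ⊕ Fin n) (by simp) Function.Embedding.inr
      rw [place_inr] at h1
      have h2 := hT n (fun _ => ((Real.cos α : ℝ) : ℂ)) (fun _ => ((Real.sin α : ℝ) : ℂ))
        (fun _ => (((-Real.sin α : ℝ)) : ℂ)) (fun _ => ((Real.cos α : ℝ) : ℂ)) (by
          intro k
          have hcs : (Real.cos α : ℂ) * Real.cos α + Real.sin α * Real.sin α = 1 := by
            have := Real.cos_sq_add_sin_sq α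
            norm_cast
            nlinarith
          rw [Matrix.mem_unitaryGroup_iff, Matrix.star_eq_conjTranspose]
          ext i j
          rw [Matrix.mul_apply, Fin.sum_univ_two]
          fin_cases i <;> fin_cases j
          · simpa [Matrix.conjTranspose_apply, -Complex.ofReal_cos, -Complex.ofReal_sin] using hcs
          · simp [Matrix.conjTranspose_apply, -Complex.ofReal_cos, -Complex.ofReal_sin]
            ring
          · simp [Matrix.conjTranspose_apply, -Complex.ofReal_cos, -Complex.ofReal_sin]
            ring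
          · simp [Matrix.conjTranspose_apply, -Complex.ofReal_cos, -Complex.ofReal_sin]
            linear_combination hcs)
      have h3 := (h1.conj.mul h2).mul h1
      rw [rotX_eq (by omega) α]
      exact h3.mono (by ring_nf; omega)

end RotFourier.UP
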