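import Pool.Agent.Lib.MP_7fb13b_lc.UP.Defs

/-!
# MP_7fb13b_lc, board UFN, row PERM: permutations of `ι` cost at most `card ι` gates
-/

open Matrix

namespace RotFourier.UP

namespace Perm

variable {ι κ : Type} [Fintype ι] [DecidableEq ι] [Fintype κ] [DecidableEq κ]

theorem pm_unitary (σ : Equiv.Perm ι) : pm σ ∈ Matrix.unitaryGroup ι ℂ := by
  rw [Matrix.mem_unitaryGroup_iff, Matrix.star_eq_conjTranspose, pm_conj, ← pm_mul,
    mul_inv_cancel, pm_one]

theorem swap_two {i j : ι} (hij : i ≠ j) : IsTwoCoordinate (pm (Equiv.swap i j)) := by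
  refine ⟨pm_unitary _, i, j, hij, fun a b hab => ?_⟩
  unfold pm
  rw [Matrix.one_apply]
  by_cases hb : b = i ∨ b = j
  · have ha : ¬ (a = i ∨ a = j) := fun ha => hab ⟨ha, hb⟩
    push Not at ha
    have h1 : a ≠ Equiv.swap i j b := by
      rcases hb with rfl | rfl
      · rw [Equiv.swap_apply_left]; exact ha.2
      · rw [Equiv.swap_apply_right]; exact ha.1
    have h2 : a ≠ b := by
      rcases hb with rfl | rfl
      · exact ha.1
      · exact ha.2
    rw [if_neg h1, if_neg h2]
  · push Not at hb
    rw [Equiv.swap_apply_of_ne_of_ne hb.1 hb.2]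

theorem main (f : ι ↪ κ) : ∀ (n : ℕ) (σ : Equiv.Perm ι), σ.support.card ≤ n →
    Alg n (place f (pm σ)) := by
  intro n
  induction n with
  | zero =>
    intro σ hσ
    have h1 : σ = 1 := by
      rw [← Equiv.Perm.support_eq_empty_iff]
      exact Finset.card_eq_zero.1 (Nat.le_zero.1 hσ)
    rw [h1, pm_one, place_one]
    exact Alg.one 0
  | succ n ih =>
    intro σ hσ
    by_cases h1 : σ = 1
    · rw [h1, pm_one, place_one]
      exact Alg.one _
    · have h2 : ∃ x, σ x ≠ x := by
        by_contra hcon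
        push Not at hcon
        exact h1 (Equiv.ext hcon)
      obtain ⟨x, hx⟩ := h2
      have h3 := Equiv.Perm.card_support_swap_mul hx
      have h4 := ih (Equiv.swap x (σ x) * σ) (by omega)
      have h5 : σ = Equiv.swap x (σ x) * (Equiv.swap x (σ x) * σ) := by
        rw [← mul_assoc, Equiv.swap_mul_self, one_mul]
      rw [h5, pm_mul, place_mul, Nat.add_comm]
      have h6 : Alg 1 (place f (pm (Equiv.swap x (σ x)))) :=
        Alg.single (isTwoCoordinate_place f (swap_two (Ne.symm hx)))
      exact Alg.mul h6 h4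

end Perm

theorem perm_proof : PermStatement := by
  intro ι κ _ _ _ _ f σ
  exact Perm.main f _ σ (Finset.card_le_univ _)

end RotFourier.UP
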