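import Pool.Agent.Lib.MP_7fb13b_lc.UP.Defs

/-!
# MP_7fb13b_lc : Rader's step
-/

open Matrix

set_option linter.unusedSectionVars false

namespace RotFourier.UP

variable {ι κ : Type} [Fintype ι] [DecidableEq ι] [Fintype κ] [DecidableEq κ]

private lemma un_mul {A B : Matrix ι ι ℂ} (hA : A ∈ Matrix.unitaryGroup ι ℂ)
    (hB : B ∈ Matrix.unitaryGroup ι ℂ) : A * B ∈ Matrix.unitaryGroup ι ℂ := mul_mem hA hB

private lemma un_conj {A : Matrix ι ι ℂ} (hA : A ∈ Matrix.unitaryGroup ι ℂ) :
    Aᴴ ∈ Matrix.unitaryGroup ι ℂ := by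
  rw [Matrix.mem_unitaryGroup_iff, Matrix.star_eq_conjTranspose,
    Matrix.conjTranspose_conjTranspose, ← Matrix.star_eq_conjTranspose]
  exact Matrix.mem_unitaryGroup_iff'.1 hA

private lemma un_left {A : Matrix ι ι ℂ} (hA : A ∈ Matrix.unitaryGroup ι ℂ) : Aᴴ * A = 1 := by
  rw [← Matrix.star_eq_conjTranspose]
  exact Matrix.mem_unitaryGroup_iff'.1 hA

private lemma un_right {A : Matrix ι ι ℂ} (hA : A ∈ Matrix.unitaryGroup ι ℂ) : A * Aᴴ = 1 := by
  rw [← Matrix.star_eq_conjTranspose]
  exact Matrix.mem_unitaryGroup_iff.1 hA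

private lemma un_pm (σ : Equiv.Perm ι) : (pm σ : Matrix ι ι ℂ) ∈ Matrix.unitaryGroup ι ℂ := by
  rw [Matrix.mem_unitaryGroup_iff, Matrix.star_eq_conjTranspose, pm_conj, ← pm_mul,
    mul_inv_cancel, pm_one]

/-- A unitary matrix which is diagonal up to the entries `(i,j)`, `(j,i)`, placed on the
coordinates `f`. -/
private lemma alg_almost_diag (h1 : DiagStatement) (f : ι ↪ κ) (hκ : 2 ≤ Fintype.card κ)
    (B : Matrix ι ι ℂ) (hB : B ∈ Matrix.unitaryGroup ι ℂ) (i j : ι) (hij : i ≠ j)
    (h0 : ∀ k l, k ≠ l → ¬ ((k = i ∧ l = j) ∨ (k = j ∧ l = i)) → B k l = 0) :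
    Alg (1 + Fintype.card ι) (place f B) := by
  classical
  have hrow : ∀ k, k ≠ i → k ≠ j → ∀ l, l ≠ k → B k l = 0 := by
    intro k hki hkj l hl
    refine h0 k l (Ne.symm hl) ?_
    rintro (⟨h, _⟩ | ⟨h, _⟩)
    · exact hki h
    · exact hkj h
  have hcol : ∀ l, l ≠ i → l ≠ j → ∀ k, k ≠ l → B k l = 0 := by
    intro l hli hlj k hk
    refine h0 k l hk ?_
    rintro (⟨_, h⟩ | ⟨_, h⟩)
    · exact hlj h
    · exact hli h
  have hdiag : ∀ k, k ≠ i → k ≠ j → B k k * star (B k k) = 1 := by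
    intro k hki hkj
    have h := congrFun (congrFun (un_right hB) k) k
    rw [Matrix.mul_apply, Finset.sum_eq_single k, Matrix.conjTranspose_apply,
      Matrix.one_apply_eq] at h
    · exact h
    · intro l _ hl
      rw [hrow k hki hkj l hl, zero_mul]
    · intro h
      exact absurd (Finset.mem_univ k) h
  let d : ι → ℂ := fun k => if k = i ∨ k = j then 1 else B k k
  have hd : ∀ k, d k * star (d k) = 1 := by
    intro k
    by_cases hk : k = i ∨ k = j
    · simp [d, hk]
    · simp only [d, hk, if_false]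
      push Not at hk
      exact hdiag k hk.1 hk.2
  have hnorm : ∀ k, ‖d k‖ = 1 := by
    intro k
    have h := congrArg norm (hd k)
    rw [norm_mul, norm_star, norm_one] at h
    have h0 := norm_nonneg (d k)
    nlinarith
  have hdd : ∀ k, star (d k) * d k = 1 := fun k => by rw [mul_comm]; exact hd k
  have hB' : B = B * Matrix.diagonal (fun k => star (d k)) * Matrix.diagonal d := by
    rw [Matrix.mul_assoc, Matrix.diagonal_mul_diagonal]
    simp only [hdd]
    rw [Matrix.diagonal_one, Matrix.mul_one]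
  have hdu : Matrix.diagonal (fun k => star (d k)) ∈ Matrix.unitaryGroup ι ℂ := by
    rw [Matrix.mem_unitaryGroup_iff, Matrix.star_eq_conjTranspose, Matrix.diagonal_conjTranspose,
      Matrix.diagonal_mul_diagonal]
    simp only [Pi.star_apply, star_star, hdd]
    exact Matrix.diagonal_one
  have hR : IsTwoCoordinate (B * Matrix.diagonal (fun k => star (d k))) := by
    refine ⟨un_mul hB hdu, i, j, hij, fun a b hab => ?_⟩
    rw [Matrix.mul_diagonal]
    by_cases hai : a = i ∨ a = j
    · have hb : ¬ (b = i ∨ b = j) := fun hb => hab ⟨hai, hb⟩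
      have hab' : a ≠ b := fun h => hb (h ▸ hai)
      push Not at hb
      rw [hcol b hb.1 hb.2 a hab', zero_mul, Matrix.one_apply_ne hab']
    · by_cases hab' : a = b
      · subst hab'
        rw [Matrix.one_apply_eq]
        have h2 : d a = B a a := by simp only [d, hai, if_false]
        rw [h2]
        push Not at hai
        exact hdiag a hai.1 hai.2
      · push Not at hai
        rw [hrow a hai.1 hai.2 b (Ne.symm hab'), zero_mul, Matrix.one_apply_ne hab']
  rw [hB', place_mul]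
  exact (Alg.single (isTwoCoordinate_place f hR)).mul (h1 ι κ f d hκ hnorm)

/-- Row RAD. -/
theorem rad_proof (h1 : DiagStatement) (h2 : PermStatement) (h3 : RidStatement) :
    RadStatement := by
  intro p N s hp hp3 hN hc κ _ _ hκ f
  obtain ⟨σ, τ, h, i, j, B, hij, hB0, heq⟩ := h3 p hp hp3
  have hX : place h (dft (p - 1)) ∈ Matrix.unitaryGroup (Fin p) ℂ :=
    place_mem_unitary h (dft_mem_unitary (by omega))
  have hF : dft p ∈ Matrix.unitaryGroup (Fin p) ℂ := dft_mem_unitary (by omega)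
  have hBe : B = place h (dft (p - 1)) * (pm σ)ᴴ * dft p * (pm τ)ᴴ *
      (place h (dft (p - 1)))ᴴ := by
    rw [heq]
    generalize hXX : place h (dft (p - 1)) = X at hX
    have e1 := un_right hX
    have e2 := un_left (un_pm σ)
    have e3 := un_right (un_pm τ)
    calc B = 1 * B * 1 := by simp
      _ = (X * Xᴴ) * B * (X * Xᴴ) := by rw [e1]
      _ = X * (1 * Xᴴ) * B * X * (1 * Xᴴ) := by
          simp only [Matrix.mul_assoc, Matrix.one_mul]
      _ = X * (((pm σ)ᴴ * pm σ) * Xᴴ) * B * X * ((pm τ * (pm τ)ᴴ) * Xᴴ) := by rw [e2, e3]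
      _ = X * (pm σ)ᴴ * (pm σ * Xᴴ * B * X * pm τ) * (pm τ)ᴴ * Xᴴ := by
          simp only [Matrix.mul_assoc]
  have hBu : B ∈ Matrix.unitaryGroup (Fin p) ℂ := by
    rw [hBe]
    exact un_mul (un_mul (un_mul (un_mul hX (un_conj (un_pm σ))) hF) (un_conj (un_pm τ)))
      (un_conj hX)
  have hκ2 : 2 ≤ Fintype.card κ := hN.trans hκ
  have a1 := h2 (Fin p) κ f σ
  have a2 := h2 (Fin p) κ f τ
  have a3 := alg_almost_diag h1 f hκ2 B hBu i j hij hB0
  have a4 : Alg s (place f (place h (dft (p - 1)))) := by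
    rw [← place_trans]
    exact hc κ hκ (h.trans f)
  have a5 : Alg s (place f ((place h (dft (p - 1)))ᴴ)) := by
    rw [place_conj]
    exact a4.conj
  rw [Fintype.card_fin] at a1 a2 a3
  rw [heq, place_mul, place_mul, place_mul, place_mul]
  exact ((((a1.mul a5).mul a3).mul a4).mul a2).mono (by omega)

end RotFourier.UP
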