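import Pool.Agent.Lib.MP_7fb13b_lc.UP.Defs

/-!
# MP_7fb13b_lc : row REC, the recursion
-/

open Matrix

set_option linter.unusedSectionVars false

namespace RotFourier.UP

namespace Rec

lemma cheap_mono {m N N' s s' : ℕ} (h : Cheap m N s) (hN : N ≤ N') (hs : s ≤ s') :
    Cheap m N' s' := by
  intro κ _ _ hκ f
  exact (h κ (hN.trans hκ) f).mono hs

lemma dft_one_eq : dft 1 = 1 := by
  ext i j
  have hi : i = 0 := Subsingleton.elim _ _
  have hj : j = 0 := Subsingleton.elim _ _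
  subst hi hj
  simp [dft]

lemma cheap_one (N : ℕ) : Cheap 1 N 0 := by
  intro κ _ _ _ f
  rw [dft_one_eq, place_one]
  exact Alg.one 0

lemma isTwoCoordinate_dft_two : IsTwoCoordinate (dft 2) := by
  refine ⟨dft_mem_unitary (by norm_num), 0, 1, by decide, fun a b hab => ?_⟩
  exfalso
  apply hab
  constructor
  · fin_cases a <;> simp
  · fin_cases b <;> simp

lemma cheap_two (N : ℕ) : Cheap 2 N 1 := by
  intro κ _ _ _ f
  exact Alg.single (isTwoCoordinate_place f isTwoCoordinate_dft_two)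

lemma cheap_three (h2 : RadStatement) {N : ℕ} (hN : 2 ≤ N) : Cheap 3 N 14 :=
  h2 3 N 1 Nat.prime_three le_rfl hN (cheap_two N)

lemma cheap_two_pow (h1 : CTStatement) {N : ℕ} (hN : 2 ≤ N) (k : ℕ) :
    Cheap (2 ^ k) N (3 * k * 2 ^ k) := by
  induction k with
  | zero => simpa using cheap_one N
  | succ k ih =>
    have h := h1 (2 ^ k) 2 N (3 * k * 2 ^ k) 1 (by positivity) (by norm_num) hN ih (cheap_two N)
    rw [pow_succ]
    refine cheap_mono h le_rfl ?_
    have := Nat.zero_le (2 ^ k)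
    nlinarith

lemma cheap_three_pow (h1 : CTStatement) (h2 : RadStatement) {N : ℕ} (hN : 2 ≤ N) (k : ℕ) :
    Cheap (3 ^ k) N (7 * k * 3 ^ k) := by
  induction k with
  | zero => simpa using cheap_one N
  | succ k ih =>
    have h := h1 (3 ^ k) 3 N (7 * k * 3 ^ k) 14 (by positivity) (by norm_num) hN ih
      (cheap_three h2 hN)
    rw [pow_succ]
    refine cheap_mono h le_rfl ?_
    have := Nat.zero_le (3 ^ k)
    nlinarith

/-- The cost is at most `A m log m + u m`. -/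
def Gd (A u : ℝ) (m N : ℕ) : Prop :=
  ∃ s : ℕ, (s : ℝ) ≤ A * (m * Real.log m) + u * m ∧ Cheap m N s

lemma log_nonneg' (m : ℕ) : 0 ≤ (m : ℝ) * Real.log m :=
  mul_nonneg (Nat.cast_nonneg _) (Real.log_natCast_nonneg _)

lemma Gd.mono {A A' u u' : ℝ} {m N : ℕ} (h : Gd A u m N) (hA : A ≤ A') (hu : u ≤ u') :
    Gd A' u' m N := by
  obtain ⟨s, hs, hc⟩ := h
  refine ⟨s, hs.trans ?_, hc⟩
  have := log_nonneg' m
  gcongr

lemma Gd.ct (h1 : CTStatement) {A u v : ℝ} {a b N : ℕ} (ha : 0 < a) (hb : 0 < b) (hN : 2 ≤ N)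
    (h : Gd A u a N) (h' : Gd A v b N) : Gd A (u + v + 2) (a * b) N := by
  obtain ⟨s, hs, hc⟩ := h
  obtain ⟨t, ht, hc'⟩ := h'
  refine ⟨b * s + a * t + 2 * (a * b), ?_, h1 a b N s t ha hb hN hc hc'⟩
  have ha' : (0 : ℝ) < a := by exact_mod_cast ha
  have hb' : (0 : ℝ) < b := by exact_mod_cast hb
  push_cast
  rw [Real.log_mul ha'.ne' hb'.ne']
  have e1 := mul_le_mul_of_nonneg_left hs hb'.le
  have e2 := mul_le_mul_of_nonneg_left ht ha'.le
  calc (b : ℝ) * s + a * t + 2 * (a * b)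
      ≤ b * (A * (a * Real.log a) + u * a) + a * (A * (b * Real.log b) + v * b) +
        2 * (a * b) := by linarith
    _ = A * (a * b * (Real.log a + Real.log b)) + (u + v + 2) * (a * b) := by ring

lemma half_le_log_two : (1 : ℝ) / 2 ≤ Real.log 2 := by
  have := Real.log_two_gt_d9
  linarith

lemma half_le_log {m : ℕ} (hm : 2 ≤ m) : (1 : ℝ) / 2 ≤ Real.log m := by
  have h : (2 : ℝ) ≤ m := by exact_mod_cast hm
  exact half_le_log_two.trans (Real.log_le_log (by norm_num) h)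

lemma one_le_log {m : ℕ} (hm : 3 ≤ m) : (1 : ℝ) ≤ Real.log m := by
  have h : (3 : ℝ) ≤ m := by exact_mod_cast hm
  rw [Real.le_log_iff_exp_le (by linarith)]
  have := Real.exp_one_lt_d9
  linarith

/-- The linear term is absorbed. -/
lemma Gd.absorb {A u : ℝ} {m N : ℕ} (hu : 0 ≤ u) (hm : 2 ≤ m) (h : Gd A u m N) :
    Gd (A + 2 * u) 0 m N := by
  obtain ⟨s, hs, hc⟩ := h
  refine ⟨s, hs.trans ?_, hc⟩
  have h1 := half_le_log hm
  have h2 : (0 : ℝ) ≤ u * m := by positivity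
  nlinarith

lemma gd_one {A u : ℝ} (hu : 0 ≤ u) (N : ℕ) : Gd A u 1 N :=
  ⟨0, by simpa using hu, cheap_one N⟩

lemma gd_two_pow (h1 : CTStatement) {N : ℕ} (hN : 2 ≤ N) (k : ℕ) : Gd 6 0 (2 ^ k) N := by
  refine ⟨3 * k * 2 ^ k, ?_, cheap_two_pow h1 hN k⟩
  push_cast
  rw [Real.log_pow]
  have := half_le_log_two
  have h2 : (0 : ℝ) ≤ 2 ^ k * k := by positivity
  nlinarith

lemma gd_three_pow (h1 : CTStatement) (h2 : RadStatement) {N : ℕ} (hN : 2 ≤ N) (k : ℕ) :
    Gd 7 0 (3 ^ k) N := by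
  refine ⟨7 * k * 3 ^ k, ?_, cheap_three_pow h1 h2 hN k⟩
  push_cast
  rw [Real.log_pow]
  have h3 : (1 : ℝ) ≤ Real.log 3 := by exact_mod_cast one_le_log (m := 3) le_rfl
  have h4 : (0 : ℝ) ≤ 3 ^ k * k := by positivity
  nlinarith

lemma gd_coprime (h1 : CTStatement) (h3 : DrtStatement) {m N : ℕ} (hm : 3 ≤ m)
    (hc : Nat.Coprime m 6) (hN : 16 * m ≤ N) : Gd 8400 0 m N := by
  set k := Nat.log 2 (3 * m) + 1 with hk
  have hk1 : 3 * m ≤ 2 ^ k := (Nat.lt_pow_succ_log_self (by norm_num) (3 * m)).le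
  have hk2 : 2 ^ k ≤ 6 * m := by
    have := Nat.pow_log_le_self 2 (x := 3 * m) (by omega)
    rw [hk, pow_succ]
    omega
  have hp : 1 ≤ 2 ^ k := Nat.one_le_two_pow
  have hC := h3 m k N (3 * k * 2 ^ k) (by omega) hc hk1 (by omega)
    (cheap_two_pow h1 (by omega) k)
  refine ⟨_, ?_, hC⟩
  have hm' : (3 : ℝ) ≤ m := by exact_mod_cast hm
  have hL := one_le_log hm
  have hk2' : (2 : ℝ) ^ k ≤ 6 * m := by exact_mod_cast hk2
  have hkL : (k : ℝ) ≤ 6 * Real.log m := by
    have e1 : (2 : ℝ) ^ k ≤ (m : ℝ) ^ 3 := by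
      refine hk2'.trans ?_
      have e0 : (6 : ℝ) ≤ (m : ℝ) ^ 2 := by nlinarith
      calc (6 : ℝ) * m ≤ (m : ℝ) ^ 2 * m := mul_le_mul_of_nonneg_right e0 (by linarith)
        _ = (m : ℝ) ^ 3 := by ring
    have e2 := Real.log_le_log (by positivity) e1
    rw [Real.log_pow, Real.log_pow] at e2
    have e3 := half_le_log_two
    have e4 : (0 : ℝ) ≤ k := Nat.cast_nonneg _
    push_cast at e2
    nlinarith
  push_cast
  have hk0 : (0 : ℝ) ≤ k := Nat.cast_nonneg _
  calc (72 : ℝ) * (3 * k * 2 ^ k) + 100 * 2 ^ k + 4 * m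
      = (216 * k + 100) * 2 ^ k + 4 * m := by ring
    _ ≤ (216 * (6 * Real.log m) + 100) * (6 * m) + 4 * m := by gcongr
    _ = 7776 * (m * Real.log m) + 604 * m := by ring
    _ ≤ 8400 * (m * Real.log m) + 0 * m := by nlinarith

lemma gd_base (h1 : CTStatement) (h2 : RadStatement) (h3 : DrtStatement) {m N : ℕ} (hm : 0 < m)
    (hN2 : 2 ≤ N) (hN : 16 * m ≤ N) : Gd 8408 0 m N := by
  by_cases hm1 : m = 1
  · subst hm1
    exact gd_one le_rfl N
  obtain ⟨e, n1, hn1, hme⟩ := Nat.exists_eq_pow_mul_and_not_dvd hm.ne' 2 (by norm_num)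
  have hn10 : n1 ≠ 0 := by
    rintro rfl
    simp at hn1
  obtain ⟨f, n2, hn2, hnf⟩ := Nat.exists_eq_pow_mul_and_not_dvd hn10 3 (by norm_num)
  have hn20 : 0 < n2 := by
    rcases Nat.eq_zero_or_pos n2 with h | h
    · subst h; simp at hn2
    · exact h
  have h2n2 : ¬ 2 ∣ n2 := fun h => hn1 (hnf ▸ h.mul_left _)
  have hcop : Nat.Coprime n2 6 := by
    have a2 : Nat.Coprime n2 2 := ((Nat.Prime.coprime_iff_not_dvd Nat.prime_two).2 h2n2).symm
    have a3 : Nat.Coprime n2 3 := ((Nat.Prime.coprime_iff_not_dvd Nat.prime_three).2 hn2).symm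
    exact Nat.Coprime.mul_right a2 a3
  have hle : n2 ≤ m := by
    rw [hme, hnf]
    have e1 : 0 < 2 ^ e := by positivity
    have e2 : 0 < 3 ^ f := by positivity
    calc n2 = 1 * (1 * n2) := by ring
      _ ≤ 2 ^ e * (3 ^ f * n2) := Nat.mul_le_mul e1 (Nat.mul_le_mul e2 le_rfl)
  have g2 : Gd 8400 0 n2 N := by
    by_cases h : n2 = 1
    · rw [h]
      exact gd_one le_rfl N
    · have hn23 : 3 ≤ n2 := by
        by_contra hlt
        have : n2 = 2 := by omega
        exact h2n2 (this ▸ dvd_rfl)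
      exact gd_coprime h1 h3 hn23 hcop ((Nat.mul_le_mul_left 16 hle).trans hN)
  have g3 : Gd 8400 (0 + 0 + 2) (3 ^ f * n2) N :=
    Gd.ct h1 (by positivity) hn20 hN2 ((gd_three_pow h1 h2 hN2 f).mono (by norm_num) le_rfl) g2
  have g4 : Gd 8400 (0 + (0 + 0 + 2) + 2) (2 ^ e * (3 ^ f * n2)) N :=
    Gd.ct h1 (by positivity) (by positivity) hN2
      ((gd_two_pow h1 hN2 e).mono (by norm_num) le_rfl) g3
  have g5 := g4.absorb (by norm_num) (by rw [← hnf, ← hme]; omega)
  rw [← hnf, ← hme] at g5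
  exact g5.mono (by norm_num) le_rfl

lemma gd_step (h1 : CTStatement) (h2 : RadStatement) {A : ℝ} (hA : 0 ≤ A) {c : ℕ}
    (h : ∀ m N : ℕ, 0 < m → 2 ≤ N → 16 * m ≤ c * N → Gd A 0 m N) :
    ∀ m N : ℕ, 0 < m → 2 ≤ N → 16 * m ≤ 2 * c * N → Gd (2 * A + 18) 0 m N := by
  intro m N hm hN2 hN
  by_cases hm1 : m = 1
  · subst hm1
    exact gd_one le_rfl N
  by_cases hp : m.Prime
  · rcases hp.eq_two_or_odd' with h2m | hodd
    · subst h2m
      refine ⟨1, ?_, cheap_two N⟩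
      have := half_le_log_two
      push_cast
      nlinarith
    · obtain ⟨q, hq⟩ := hodd
      have hq0 : 0 < q := by omega
      obtain ⟨s, hs, hc⟩ := h q N hq0 hN2 (by nlinarith)
      have hc2 := h1 2 q N 1 s (by norm_num) hq0 hN2 (cheap_two N) hc
      have hc3 : Cheap (m - 1) N (q * 1 + 2 * s + 2 * (2 * q)) := by
        have : m - 1 = 2 * q := by omega
        rw [this]
        exact hc2
      have hc4 := h2 m N _ hp (by omega) hN2 hc3
      refine ⟨_, ?_, hc4⟩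
      have hmq : (m : ℝ) = 2 * q + 1 := by rw [hq]; push_cast; ring
      have hq1 : (1 : ℝ) ≤ q := by exact_mod_cast hq0
      have hlog : Real.log q ≤ Real.log m := Real.log_le_log (by linarith) (by linarith)
      have hlog0 : 0 ≤ Real.log q := Real.log_nonneg hq1
      have hL := half_le_log (m := m) (by omega)
      push_cast
      have hqL : (q : ℝ) * Real.log q ≤ (m / 2) * Real.log m := by
        apply mul_le_mul _ hlog hlog0 (by linarith)
        linarith
      have hs' : (s : ℝ) ≤ A * ((m / 2) * Real.log m) := by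
        refine hs.trans ?_
        rw [zero_mul, add_zero]
        exact mul_le_mul_of_nonneg_left hqL hA
      have hm0 : (0 : ℝ) ≤ m := Nat.cast_nonneg _
      have hmL : (m : ℝ) ≤ 2 * (m * Real.log m) := by nlinarith
      calc (2 : ℝ) * (q * 1 + 2 * s + 2 * (2 * q)) + 4 * m
          = 4 * s + 10 * q + 4 * m := by ring
        _ ≤ 4 * (A * ((m / 2) * Real.log m)) + 9 * m := by linarith
        _ ≤ 4 * (A * ((m / 2) * Real.log m)) + 9 * (2 * (m * Real.log m)) := by linarith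
        _ = (2 * A + 18) * (m * Real.log m) + 0 * m := by ring
  · obtain ⟨a, b, ha, hb, hab⟩ : ∃ a b, 2 ≤ a ∧ 2 ≤ b ∧ m = a * b := by
      obtain ⟨a, ha1, ha2, ha3⟩ := Nat.exists_dvd_of_not_prime2 (by omega) hp
      obtain ⟨b, hb⟩ := ha1
      refine ⟨a, b, ha2, ?_, hb⟩
      by_contra hlt
      have : b = 0 ∨ b = 1 := by omega
      rcases this with h0 | h0
      · rw [h0] at hb; omega
      · rw [h0] at hb; omega
    have ga := h a N (by omega) hN2 (by subst hab; nlinarith)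
    have gb := h b N (by omega) hN2 (by subst hab; nlinarith)
    have g := Gd.ct h1 (by omega) (by omega) hN2 ga gb
    rw [← hab] at g
    exact (g.absorb (by norm_num) (by omega)).mono (by linarith) le_rfl

end Rec

open Rec in
theorem rec_proof (h1 : CTStatement) (h2 : RadStatement) (h3 : DrtStatement) : RecStatement := by
  have p0 : ∀ m N : ℕ, 0 < m → 2 ≤ N → 16 * m ≤ 1 * N → Gd 8408 0 m N :=
    fun m N hm hN h => gd_base h1 h2 h3 hm hN (by omega)
  have p1 := gd_step h1 h2 (by norm_num) p0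
  have p2 := gd_step h1 h2 (by norm_num) p1
  have p3 := gd_step h1 h2 (by norm_num) p2
  have p4 := gd_step h1 h2 (by norm_num) p3
  refine ⟨2 * (2 * (2 * (2 * 8408 + 18) + 18) + 18) + 18, fun n hn => ?_⟩
  obtain ⟨s, hs, hc⟩ := p4 n n (by omega) hn (by omega)
  rw [zero_mul, add_zero] at hs
  exact ⟨s, hs, hc⟩

end RotFourier.UP
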