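import Pool.Agent.Lib.MP_7fb13b_lc.UP.Defs

/-!
# MP_7fb13b_lc, board UFN, row RID: the matrix identity of Rader
-/

open Matrix

set_option linter.unusedSectionVars false

namespace RotFourier.UP

namespace RidRow

/-- The entries of the Fourier matrix are values of the standard additive character. -/
lemma dft_eq (n : ℕ) [NeZero n] (k l : Fin n) :
    dft n k l = ((Real.sqrt n : ℝ) : ℂ)⁻¹ *
      ZMod.stdAddChar (-(((k : ℕ) : ZMod n) * ((l : ℕ) : ZMod n))) := by
  have h : (-(((k : ℕ) : ZMod n) * ((l : ℕ) : ZMod n))) =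
      ((-(((k : ℕ) : ℤ) * ((l : ℕ) : ℤ)) : ℤ) : ZMod n) := by
    push_cast
    ring
  rw [h, ZMod.stdAddChar_coe]
  unfold dft
  congr 2
  push_cast
  ring

/-- A permutation given by the powers of a unit. -/
lemma exists_perm (n : ℕ) [Fact (Nat.Prime (n + 1))] (g : (ZMod (n + 1))ˣ) (hg : orderOf g = n) :
    ∃ σ : Equiv.Perm (Fin (n + 1)), (((σ 0 : Fin (n + 1)) : ℕ) : ZMod (n + 1)) = 0 ∧
      ∀ a : Fin n, (((σ a.succ : Fin (n + 1)) : ℕ) : ZMod (n + 1)) =
        ((g ^ (a : ℕ) : (ZMod (n + 1))ˣ) : ZMod (n + 1)) := by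
  classical
  let φ : Fin (n + 1) → ZMod (n + 1) := fun k =>
    Fin.cases (motive := fun _ => ZMod (n + 1)) 0
      (fun a => ((g ^ (a : ℕ) : (ZMod (n + 1))ˣ) : ZMod (n + 1))) k
  have h0 : φ 0 = 0 := rfl
  have hs : ∀ a : Fin n, φ a.succ = ((g ^ (a : ℕ) : (ZMod (n + 1))ˣ) : ZMod (n + 1)) :=
    fun a => rfl
  have hinj : Function.Injective φ := by
    intro x y hxy
    rcases Fin.eq_zero_or_eq_succ x with rfl | ⟨a, rfl⟩
    · rcases Fin.eq_zero_or_eq_succ y with rfl | ⟨b, rfl⟩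
      · rfl
      · rw [h0, hs] at hxy
        exact absurd hxy.symm (Units.ne_zero _)
    · rcases Fin.eq_zero_or_eq_succ y with rfl | ⟨b, rfl⟩
      · rw [h0, hs] at hxy
        exact absurd hxy (Units.ne_zero _)
      · rw [hs, hs] at hxy
        have h1 : g ^ (a : ℕ) = g ^ (b : ℕ) := Units.ext hxy
        have h2 := pow_injOn_Iio_orderOf (x := g) (by rw [hg]; exact a.2) (by rw [hg]; exact b.2) h1
        rw [Fin.ext h2]
  let f : Fin (n + 1) → Fin (n + 1) := fun k => ⟨(φ k).val, ZMod.val_lt _⟩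
  have hf : ∀ k, (((f k : Fin (n + 1)) : ℕ) : ZMod (n + 1)) = φ k :=
    fun k => ZMod.natCast_zmod_val (φ k)
  have hfinj : Function.Injective f := by
    intro x y hxy
    apply hinj
    rw [← hf, ← hf, hxy]
  refine ⟨Equiv.ofBijective f (Finite.injective_iff_bijective.1 hfinj), ?_, fun a => ?_⟩
  · rw [Equiv.ofBijective_apply, hf, h0]
  · rw [Equiv.ofBijective_apply, hf, hs]

/-- The rows of `F_n` other than the zeroth one sum to zero. -/
lemma sum_row {n : ℕ} [NeZero n] (a : Fin n) (ha : a ≠ 0) : ∑ x, dft n a x = 0 := by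
  have hn : 0 < n := Nat.pos_of_ne_zero (NeZero.ne n)
  have h1 := congrFun (congrFun (dft_mul_conjTranspose hn) a) 0
  rw [Matrix.one_apply_ne ha, Matrix.mul_apply] at h1
  have hs : (((Real.sqrt n : ℝ) : ℂ))⁻¹ ≠ 0 := by
    apply inv_ne_zero
    have : Real.sqrt n ≠ 0 := by
      apply ne_of_gt
      apply Real.sqrt_pos.2
      exact_mod_cast hn
    exact_mod_cast this
  have h2 : ∀ x : Fin n, dft n a x * (dft n)ᴴ x 0 = dft n a x * (((Real.sqrt n : ℝ) : ℂ))⁻¹ := by
    intro x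
    congr 1
    rw [Matrix.conjTranspose_apply]
    unfold dft
    simp
  rw [Finset.sum_congr rfl (fun x _ => h2 x), ← Finset.sum_mul] at h1
  exact (mul_eq_zero.1 h1).resolve_right hs

/-- Circulant matrices are diagonal in the Fourier basis. -/
lemma circ_diag {n : ℕ} [NeZero n] (C : Fin n → Fin n → ℂ) (c : Fin n → ℂ)
    (hC : ∀ z y, C (z + y) y = c z) (a b : Fin n) (hab : a ≠ b) :
    ∑ y, (∑ x, dft n a x * C x y) * star (dft n b y) = 0 := by
  have hn : 0 < n := Nat.pos_of_ne_zero (NeZero.ne n)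
  have hroot : ((Real.sqrt n : ℝ) : ℂ) ≠ 0 := by
    have : Real.sqrt n ≠ 0 := by
      apply ne_of_gt
      apply Real.sqrt_pos.2
      exact_mod_cast hn
    exact_mod_cast this
  have hshift : ∀ z y : Fin n, dft n a (z + y) =
      ((Real.sqrt n : ℝ) : ℂ) * dft n a z * dft n a y := by
    intro z y
    rw [dft_eq, dft_eq, dft_eq]
    have h1 : (((z + y : Fin n) : ℕ) : ZMod n) = ((z : ℕ) : ZMod n) + ((y : ℕ) : ZMod n) := by
      rw [Fin.val_add, ZMod.natCast_mod, Nat.cast_add]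
    rw [h1]
    have h2 : -(((a : ℕ) : ZMod n) * (((z : ℕ) : ZMod n) + ((y : ℕ) : ZMod n))) =
        -(((a : ℕ) : ZMod n) * ((z : ℕ) : ZMod n)) +
          -(((a : ℕ) : ZMod n) * ((y : ℕ) : ZMod n)) := by ring
    rw [h2, AddChar.map_add_eq_mul]
    field_simp
  have hinner : ∀ y : Fin n, ∑ x, dft n a x * C x y =
      (((Real.sqrt n : ℝ) : ℂ) * ∑ z, dft n a z * c z) * dft n a y := by
    intro y
    rw [← Equiv.sum_comp (Equiv.addRight y)]
    rw [Finset.mul_sum, Finset.sum_mul]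
    refine Finset.sum_congr rfl (fun z _ => ?_)
    rw [Equiv.coe_addRight, hC, hshift]
    ring
  have h1 := congrFun (congrFun (dft_mul_conjTranspose hn) a) b
  rw [Matrix.one_apply_ne hab, Matrix.mul_apply] at h1
  calc ∑ y, (∑ x, dft n a x * C x y) * star (dft n b y)
      = ∑ y, (((Real.sqrt n : ℝ) : ℂ) * ∑ z, dft n a z * c z) *
          (dft n a y * (dft n)ᴴ y b) := by
        refine Finset.sum_congr rfl (fun y _ => ?_)
        rw [hinner, Matrix.conjTranspose_apply]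
        ring
    _ = 0 := by rw [← Finset.mul_sum, h1, mul_zero]

end RidRow

open RidRow in
theorem rid_proof : RidStatement := by
  classical
  intro p hp h3
  obtain ⟨n, rfl⟩ : ∃ n, p = n + 1 := ⟨p - 1, by omega⟩
  have : Fact (Nat.Prime (n + 1)) := ⟨hp⟩
  have : NeZero n := ⟨by omega⟩
  have hn : 0 < n := by omega
  change ∃ (σ τ : Equiv.Perm (Fin (n + 1))) (h : Fin n ↪ Fin (n + 1)) (i j : Fin (n + 1))
      (B : Matrix (Fin (n + 1)) (Fin (n + 1)) ℂ), i ≠ j ∧
      (∀ k l, k ≠ l → ¬ ((k = i ∧ l = j) ∨ (k = j ∧ l = i)) → B k l = 0) ∧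
      dft (n + 1) = pm σ * (place h (dft n))ᴴ * B * place h (dft n) * pm τ
  obtain ⟨g, hg⟩ := IsCyclic.exists_generator (α := (ZMod (n + 1))ˣ)
  have hord : orderOf g = n := by
    rw [orderOf_eq_card_of_forall_mem_zpowers hg, Nat.card_eq_fintype_card, ZMod.card_units]
    rfl
  obtain ⟨σ, hσ0, hσ⟩ := exists_perm n g hord
  obtain ⟨ρ, hρ0, hρ⟩ := exists_perm n g⁻¹ (by rw [orderOf_inv, hord])
  set s : ℂ := (((Real.sqrt ((n + 1 : ℕ) : ℝ) : ℝ) : ℂ))⁻¹ with hs
  set A : Matrix (Fin (n + 1)) (Fin (n + 1)) ℂ := pm σ⁻¹ * dft (n + 1) * pm ρ with hA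
  have hAe : ∀ k l, A k l = dft (n + 1) (σ k) (ρ l) := by
    intro k l
    rw [hA, mul_pm_apply, pm_mul_apply, inv_inv]
  have hA0l : ∀ l, A 0 l = s := by
    intro l
    rw [hAe, dft_eq, hσ0, zero_mul, neg_zero, AddChar.map_zero_eq_one, mul_one]
  have hAk0 : ∀ k, A k 0 = s := by
    intro k
    rw [hAe, dft_eq, hρ0, mul_zero, neg_zero, AddChar.map_zero_eq_one, mul_one]
  set c : Fin n → ℂ := fun z => s * ZMod.stdAddChar
    (-(((g ^ (z : ℕ) : (ZMod (n + 1))ˣ) : ZMod (n + 1)))) with hc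
  have hAc : ∀ z y : Fin n, A (z + y).succ y.succ = c z := by
    intro z y
    rw [hAe, dft_eq, hσ, hρ, hc]
    simp only
    congr 2
    rw [← Units.val_mul]
    congr 2
    have hmod : ∀ k : ℕ, g ^ (k % n) = g ^ k := by
      intro k
      have h := pow_mod_orderOf g k
      rwa [hord] at h
    rw [inv_pow, mul_inv_eq_iff_eq_mul, ← pow_add, Fin.val_add, hmod]
  set P : Matrix (Fin (n + 1)) (Fin (n + 1)) ℂ := place (Fin.succEmb n) (dft n) with hP
  have hrange : ∀ i : Fin n, (0 : Fin (n + 1)) ≠ (Fin.succEmb n) i := by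
    intro i h
    exact Fin.succ_ne_zero i h.symm
  have hP00 : P 0 0 = 1 := by
    rw [hP, place_apply_left _ _ _ _ hrange, Matrix.one_apply_eq]
  have hP0s : ∀ b : Fin n, P 0 b.succ = 0 := by
    intro b
    rw [hP, place_apply_left _ _ _ _ hrange, Matrix.one_apply_ne (Fin.succ_ne_zero b).symm]
  have hPs0 : ∀ a : Fin n, P a.succ 0 = 0 := by
    intro a
    rw [hP, place_apply_right _ _ _ _ hrange, Matrix.one_apply_ne (Fin.succ_ne_zero a)]
  have hPss : ∀ a b : Fin n, P a.succ b.succ = dft n a b := fun a b => by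
    rw [hP]
    exact place_apply (Fin.succEmb n) (dft n) a b
  have hPP : Pᴴ * P = 1 := by
    rw [hP, ← place_conj, ← place_mul, conjTranspose_mul_dft hn, place_one]
  have hPA0 : ∀ v, (P * A) 0 v = A 0 v := by
    intro v
    rw [Matrix.mul_apply, Fin.sum_univ_succ, hP00, one_mul]
    simp only [hP0s, zero_mul, Finset.sum_const_zero, add_zero]
  have hPAs : ∀ a v, (P * A) (Fin.succ a) v = ∑ x, dft n a x * A (Fin.succ x) v := by
    intro a v
    rw [Matrix.mul_apply, Fin.sum_univ_succ, hPs0, zero_mul, zero_add]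
    simp only [hPss]
  have hB0 : ∀ k, (P * A * Pᴴ) k 0 = (P * A) k 0 := by
    intro k
    rw [Matrix.mul_apply, Fin.sum_univ_succ]
    simp only [Matrix.conjTranspose_apply, hP00, hP0s, star_one, star_zero, mul_one, mul_zero,
      Finset.sum_const_zero, add_zero]
  have hBs : ∀ k b, (P * A * Pᴴ) k (Fin.succ b) = ∑ y, (P * A) k (Fin.succ y) * star (dft n b y) := by
    intro k b
    rw [Matrix.mul_apply, Fin.sum_univ_succ]
    simp only [Matrix.conjTranspose_apply, hPs0, hPss, star_zero, mul_zero, zero_add]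
  refine ⟨σ, ρ⁻¹, Fin.succEmb n, 0, Fin.succ 0, P * A * Pᴴ, (Fin.succ_ne_zero _).symm, ?_, ?_⟩
  · intro k l hkl hnot
    rcases Fin.eq_zero_or_eq_succ k with rfl | ⟨a, rfl⟩
    · rcases Fin.eq_zero_or_eq_succ l with rfl | ⟨b, rfl⟩
      · exact absurd rfl hkl
      · have hb : b ≠ 0 := fun h => hnot (Or.inl ⟨rfl, by rw [h]⟩)
        rw [hBs]
        simp only [hPA0, hA0l]
        rw [← Finset.mul_sum]
        have h1 := sum_row b hb
        have h2 : ∑ y, star (dft n b y) = 0 := by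
          rw [← star_sum, h1, star_zero]
        rw [h2, mul_zero]
    · rcases Fin.eq_zero_or_eq_succ l with rfl | ⟨b, rfl⟩
      · have ha : a ≠ 0 := fun h => hnot (Or.inr ⟨by rw [h], rfl⟩)
        rw [hB0, hPAs]
        simp only [hAk0]
        rw [← Finset.sum_mul, sum_row a ha, zero_mul]
      · have hab : a ≠ b := fun h => hkl (by rw [h])
        rw [hBs]
        simp only [hPAs]
        exact circ_diag (fun x y => A x.succ y.succ) c hAc a b hab
  · have h1 : dft (n + 1) = pm σ * A * pm ρ⁻¹ := by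
      have e1 : pm σ * pm σ⁻¹ = (1 : Matrix (Fin (n + 1)) (Fin (n + 1)) ℂ) := by
        rw [← pm_mul, mul_inv_cancel, pm_one]
      have e2 : pm ρ * pm ρ⁻¹ = (1 : Matrix (Fin (n + 1)) (Fin (n + 1)) ℂ) := by
        rw [← pm_mul, mul_inv_cancel, pm_one]
      rw [hA]
      calc dft (n + 1) = (pm σ * pm σ⁻¹) * dft (n + 1) * (pm ρ * pm ρ⁻¹) := by
            rw [e1, e2, Matrix.one_mul, Matrix.mul_one]
        _ = pm σ * (pm σ⁻¹ * dft (n + 1) * pm ρ) * pm ρ⁻¹ := by
            simp only [Matrix.mul_assoc]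
    calc dft (n + 1) = pm σ * A * pm ρ⁻¹ := h1
      _ = pm σ * (Pᴴ * P) * A * (Pᴴ * P) * pm ρ⁻¹ := by
          rw [hPP, Matrix.mul_one, Matrix.mul_one]
      _ = pm σ * Pᴴ * (P * A * Pᴴ) * P * pm ρ⁻¹ := by
          simp only [Matrix.mul_assoc]

end RotFourier.UP
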