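import Pool.Agent.Lib.MP_7fb13b_lc.UP.Defs

/-!
# MP_7fb13b_lc : board UFN, row SBD (the bound of the Fejér type sums)
-/

open Matrix

namespace RotFourier.UP

/-- `exp(2 π i x)`. -/
noncomputable def ee (x : ℝ) : ℂ := Complex.exp ((2 * Real.pi * x : ℝ) * Complex.I)

lemma ee_add (x y : ℝ) : ee (x + y) = ee x * ee y := by
  unfold ee
  rw [← Complex.exp_add]
  congr 1
  push_cast
  ring

lemma norm_ee (x : ℝ) : ‖ee x‖ = 1 := by
  unfold ee
  exact Complex.norm_exp_ofReal_mul_I _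

lemma conj_ee (x : ℝ) : (starRingEnd ℂ) (ee x) = ee (-x) := by
  unfold ee
  rw [← Complex.exp_conj, map_mul, Complex.conj_ofReal, Complex.conj_I]
  congr 1
  push_cast
  ring

lemma ee_int (t : ℤ) : ee (t : ℝ) = 1 := by
  unfold ee
  rw [Complex.exp_eq_one_iff]
  exact ⟨t, by push_cast; ring⟩

lemma ee_zero : ee 0 = 1 := by
  have := ee_int 0
  simpa using this

lemma ee_nsmul (x : ℝ) (l : ℕ) : ee (l * x) = ee x ^ l := by
  induction l with
  | zero => simp [ee_zero]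
  | succ l ih =>
    rw [pow_succ, ← ih, ← ee_add]
    congr 1
    push_cast
    ring

lemma ee_eq_one_iff {N : ℕ} (hN : 0 < N) (t : ℤ) : ee ((t : ℝ) / N) = 1 ↔ (N : ℤ) ∣ t := by
  have hN' : (N : ℝ) ≠ 0 := by exact_mod_cast hN.ne'
  constructor
  · intro h
    unfold ee at h
    rw [Complex.exp_eq_one_iff] at h
    obtain ⟨k, hk⟩ := h
    refine ⟨k, ?_⟩
    have h1 : ((2 * Real.pi * ((t : ℝ) / N) : ℝ) : ℂ) = ((2 * Real.pi * (k : ℝ) : ℝ) : ℂ) := by
      have h2 : ((2 * Real.pi * ((t : ℝ) / N) : ℝ) : ℂ) * Complex.I =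
          ((2 * Real.pi * (k : ℝ) : ℝ) : ℂ) * Complex.I := by
        rw [hk]
        push_cast
        ring
      exact mul_right_cancel₀ Complex.I_ne_zero h2
    have h3 := Complex.ofReal_injective h1
    have h4 : (t : ℝ) / N = k := by
      have : (2 * Real.pi : ℝ) ≠ 0 := by positivity
      exact mul_left_cancel₀ this h3
    rw [div_eq_iff hN'] at h4
    have h5 : (t : ℝ) = ((N * k : ℤ) : ℝ) := by
      rw [h4]; push_cast; ring
    exact_mod_cast h5
  · rintro ⟨k, rfl⟩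
    have : (((N : ℤ) * k : ℤ) : ℝ) / N = (k : ℝ) := by
      push_cast
      field_simp
    rw [this, ee_int]

/-- Orthogonality of the characters. -/
lemma sum_ee {N : ℕ} (hN : 0 < N) (t : ℤ) :
    ∑ l ∈ Finset.range N, ee ((l : ℝ) * ((t : ℝ) / N)) = if (N : ℤ) ∣ t then (N : ℂ) else 0 := by
  have hN' : (N : ℝ) ≠ 0 := by exact_mod_cast hN.ne'
  simp only [ee_nsmul]
  split_ifs with h
  · rw [(ee_eq_one_iff hN t).2 h]
    simp
  · have h1 : ee ((t : ℝ) / N) ≠ 1 := fun h' => h ((ee_eq_one_iff hN t).1 h')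
    rw [geom_sum_eq h1, ← ee_nsmul]
    have : (N : ℝ) * ((t : ℝ) / N) = (t : ℝ) := by field_simp
    rw [this, ee_int]
    simp

/-- The kernel in terms of `ee`. -/
lemma ker_eq {m : ℕ} (c : Fin m → ℂ) (t : ℤ) :
    ker c t = (m : ℂ)⁻¹ * ∑ k : Fin m, c k * ee ((k : ℕ) * ((t : ℝ) / m)) := by
  unfold ker ee
  congr 1
  refine Finset.sum_congr rfl fun k _ => ?_
  congr 2
  push_cast
  ring

lemma fej_eq {m : ℕ} (c : Fin m → ℂ) (N M l : ℕ) :
    fej c N M l = (M : ℂ)⁻¹ * ∑ p ∈ Finset.range M, ∑ q ∈ Finset.range M,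
      ker c ((p : ℤ) - (q : ℤ)) * ee (-((l : ℝ) * (((p : ℤ) - (q : ℤ) : ℤ) : ℝ) / N)) := by
  unfold fej
  congr 1
  refine Finset.sum_congr rfl fun p _ => Finset.sum_congr rfl fun q _ => ?_
  unfold ee
  congr 2
  push_cast
  ring

/-- Parseval. -/
lemma parseval {m : ℕ} (hm : 0 < m) (a : ℕ → ℂ) :
    ∑ k : Fin m, ‖∑ v ∈ Finset.range m, ee ((k : ℕ) * ((v : ℝ) / m)) * a v‖ ^ 2 =
      m * ∑ v ∈ Finset.range m, ‖a v‖ ^ 2 := by
  have key : ∑ k : Fin m, (∑ v ∈ Finset.range m, ee ((k : ℕ) * ((v : ℝ) / m)) * a v) *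
      (starRingEnd ℂ) (∑ v ∈ Finset.range m, ee ((k : ℕ) * ((v : ℝ) / m)) * a v) =
      m * ∑ v ∈ Finset.range m, a v * (starRingEnd ℂ) (a v) := by
    have h1 : ∀ k : Fin m, (∑ v ∈ Finset.range m, ee ((k : ℕ) * ((v : ℝ) / m)) * a v) *
        (starRingEnd ℂ) (∑ v ∈ Finset.range m, ee ((k : ℕ) * ((v : ℝ) / m)) * a v) =
        ∑ v ∈ Finset.range m, ∑ w ∈ Finset.range m, (a v * (starRingEnd ℂ) (a w)) *
          ee ((k : ℕ) * ((((v : ℤ) - (w : ℤ) : ℤ) : ℝ) / m)) := by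
      intro k
      rw [map_sum, Finset.sum_mul_sum]
      refine Finset.sum_congr rfl fun v _ => Finset.sum_congr rfl fun w _ => ?_
      rw [map_mul, conj_ee]
      have : ee ((k : ℕ) * ((((v : ℤ) - (w : ℤ) : ℤ) : ℝ) / m)) =
          ee ((k : ℕ) * ((v : ℝ) / m)) * ee (-((k : ℕ) * ((w : ℝ) / m))) := by
        rw [← ee_add]
        congr 1
        push_cast
        ring
      rw [this]
      ring
    simp only [h1]
    rw [Finset.sum_comm, Finset.mul_sum]
    refine Finset.sum_congr rfl fun v hv => ?_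
    rw [Finset.sum_comm]
    have h2 : ∀ w ∈ Finset.range m, ∑ k : Fin m, (a v * (starRingEnd ℂ) (a w)) *
        ee ((k : ℕ) * ((((v : ℤ) - (w : ℤ) : ℤ) : ℝ) / m)) =
        if w = v then (m : ℂ) * (a v * (starRingEnd ℂ) (a w)) else 0 := by
      intro w hw
      rw [← Finset.mul_sum]
      have h3 := sum_ee hm ((v : ℤ) - (w : ℤ))
      rw [Finset.sum_range] at h3
      rw [h3]
      have h4 : (m : ℤ) ∣ (v : ℤ) - (w : ℤ) ↔ w = v := by
        rw [Finset.mem_range] at hv hw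
        constructor
        · intro h
          have := Int.eq_zero_of_abs_lt_dvd h (by rw [abs_lt]; constructor <;> omega)
          omega
        · rintro rfl; simp
      by_cases h5 : w = v
      · rw [if_pos (h4.2 h5), if_pos h5]; ring
      · rw [if_neg (fun h => h5 (h4.1 h)), if_neg h5]; ring
    rw [Finset.sum_congr rfl h2, Finset.sum_ite_eq' (Finset.range m) v, if_pos hv]
  have h6 : ∀ z : ℂ, z * (starRingEnd ℂ) z = ((‖z‖ ^ 2 : ℝ) : ℂ) := by
    intro z
    rw [Complex.mul_conj, Complex.normSq_eq_norm_sq]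
  simp only [h6] at key
  exact_mod_cast key

/-- Splitting a sum of `r m` terms into blocks. -/
lemma sum_block (m l N : ℕ) (k : Fin m) (r : ℕ) (hm : 0 < m) :
    ∑ p ∈ Finset.range (r * m), ee ((p : ℝ) * ((k : ℕ) / m - l / N)) =
      (∑ u ∈ Finset.range r, ee (-((u : ℝ) * m * l / N))) *
      ∑ v ∈ Finset.range m, ee ((k : ℕ) * ((v : ℝ) / m)) * ee (-((v : ℝ) * l / N)) := by
  have hm' : (m : ℝ) ≠ 0 := by exact_mod_cast hm.ne'
  induction r with
  | zero => simp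
  | succ r ih =>
    rw [Nat.succ_mul, Finset.sum_range_add, Finset.sum_range_succ, add_mul, ih]
    congr 1
    rw [Finset.mul_sum]
    refine Finset.sum_congr rfl fun v _ => ?_
    have h1 : (((r * m + v : ℕ) : ℝ)) * ((k : ℕ) / m - l / N) =
        (((r * (k : ℕ) : ℕ) : ℤ) : ℝ) + (-((r : ℝ) * m * l / N) +
          ((k : ℕ) * ((v : ℝ) / m) + -((v : ℝ) * l / N))) := by
      push_cast
      field_simp
      ring
    rw [h1, ee_add, ee_int, one_mul, ee_add, ee_add]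

/-- SBD. -/
theorem sbd_proof : SbdStatement := by
  intro m N r l c hm hN hr hc
  have hm' : (m : ℝ) ≠ 0 := by exact_mod_cast hm.ne'
  have hr' : (r : ℝ) ≠ 0 := by exact_mod_cast hr.ne'
  set S : Fin m → ℂ := fun k => ∑ p ∈ Finset.range (r * m),
    ee ((p : ℝ) * ((k : ℕ) / m - l / N)) with hS
  -- the sum as a mean of squares
  have h1 : fej c N (r * m) l = ((r * m : ℕ) : ℂ)⁻¹ * ((m : ℂ)⁻¹ *
      ∑ k : Fin m, c k * (S k * (starRingEnd ℂ) (S k))) := by
    rw [fej_eq]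
    congr 1
    have h2 : ∀ p q : ℕ, ker c ((p : ℤ) - (q : ℤ)) *
        ee (-((l : ℝ) * (((p : ℤ) - (q : ℤ) : ℤ) : ℝ) / N)) =
        (m : ℂ)⁻¹ * ∑ k : Fin m, c k * (ee ((p : ℝ) * ((k : ℕ) / m - l / N)) *
          ee (-((q : ℝ) * ((k : ℕ) / m - l / N)))) := by
      intro p q
      rw [ker_eq, mul_assoc, Finset.sum_mul]
      congr 1
      refine Finset.sum_congr rfl fun k _ => ?_
      rw [mul_assoc, ← ee_add, ← ee_add]
      congr 2
      push_cast
      ring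
    simp only [h2, ← Finset.mul_sum]
    congr 1
    have h3 : ∀ k : Fin m, c k * (S k * (starRingEnd ℂ) (S k)) =
        ∑ p ∈ Finset.range (r * m), ∑ q ∈ Finset.range (r * m),
          c k * (ee ((p : ℝ) * ((k : ℕ) / m - l / N)) *
            ee (-((q : ℝ) * ((k : ℕ) / m - l / N)))) := by
      intro k
      simp only [hS, map_sum, conj_ee]
      rw [Finset.sum_mul_sum, Finset.mul_sum]
      refine Finset.sum_congr rfl fun p _ => ?_
      rw [Finset.mul_sum]
    simp only [h3]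
    exact (Finset.sum_congr rfl fun p _ => Finset.sum_comm).trans Finset.sum_comm
  have hRT : ∀ k : Fin m, S k = (∑ u ∈ Finset.range r, ee (-((u : ℝ) * m * l / N))) *
      ∑ v ∈ Finset.range m, ee ((k : ℕ) * ((v : ℝ) / m)) * ee (-((v : ℝ) * l / N)) := by
    intro k
    simp only [hS]
    exact sum_block m l N k r hm
  have hR : ‖∑ u ∈ Finset.range r, ee (-((u : ℝ) * m * l / N))‖ ≤ r := by
    refine (norm_sum_le _ _).trans ?_
    simp [norm_ee]
  have hP := parseval hm (fun v => ee (-((v : ℝ) * l / N)))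
  simp only [norm_ee, one_pow, Finset.sum_const, Finset.card_range, nsmul_eq_mul, mul_one] at hP
  have hsum : ∑ k : Fin m, ‖S k‖ ^ 2 ≤ (r : ℝ) ^ 2 * ((m : ℝ) * m) := by
    rw [← hP, Finset.mul_sum]
    refine Finset.sum_le_sum fun k _ => ?_
    rw [hRT k, norm_mul, mul_pow]
    gcongr
  rw [h1, norm_mul, norm_mul, norm_inv, norm_inv, Complex.norm_natCast, Complex.norm_natCast]
  have h4 : ‖∑ k : Fin m, c k * (S k * (starRingEnd ℂ) (S k))‖ ≤ (r : ℝ) ^ 2 * ((m : ℝ) * m) := by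
    refine ((norm_sum_le _ _).trans (Finset.sum_le_sum fun k _ => ?_)).trans hsum
    rw [norm_mul, norm_mul, hc k, RCLike.norm_conj, one_mul, sq]
  calc ((r * m : ℕ) : ℝ)⁻¹ * ((m : ℝ)⁻¹ * ‖∑ k : Fin m, c k * (S k * (starRingEnd ℂ) (S k))‖)
      ≤ ((r * m : ℕ) : ℝ)⁻¹ * ((m : ℝ)⁻¹ * ((r : ℝ) ^ 2 * ((m : ℝ) * m))) := by gcongr
    _ = r := by
      push_cast
      field_simp

end RotFourier.UP
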