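import Pool.Agent.Lib.MP_7fb13b_lc.UP.Sbd

/-!
# MP_7fb13b_lc : board UFN, row SCO (the coefficients of the Fejér type sums)
-/

open Matrix

namespace RotFourier.UP

/-- The number of pairs with a given difference. -/
lemma cnt_nat (M n : ℕ) (h : n < M) :
    ∑ q ∈ Finset.range M, ∑ p ∈ Finset.range M, (if (p : ℤ) - (q : ℤ) = (n : ℤ) then (1 : ℂ) else 0)
      = (M : ℂ) - n := by
  have h1 : ∀ q ∈ Finset.range M,
      ∑ p ∈ Finset.range M, (if (p : ℤ) - (q : ℤ) = (n : ℤ) then (1 : ℂ) else 0) =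
        if q < M - n then 1 else 0 := by
    intro q _
    have h2 : ∀ p ∈ Finset.range M, (if (p : ℤ) - (q : ℤ) = (n : ℤ) then (1 : ℂ) else 0) =
        if p = q + n then 1 else 0 := by
      intro p _
      have : ((p : ℤ) - (q : ℤ) = (n : ℤ)) ↔ p = q + n := by omega
      simp only [this]
    rw [Finset.sum_congr rfl h2, Finset.sum_ite_eq' (Finset.range M) (q + n)]
    have : (q + n ∈ Finset.range M) ↔ q < M - n := by
      rw [Finset.mem_range]; omega
    simp only [this]
  rw [Finset.sum_congr rfl h1, ← Finset.sum_filter, Finset.sum_const, nsmul_eq_mul, mul_one]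
  have h3 : (Finset.range M).filter (fun q => q < M - n) = Finset.range (M - n) := by
    ext q
    simp only [Finset.mem_filter, Finset.mem_range]
    omega
  rw [h3, Finset.card_range, Nat.cast_sub h.le]

lemma cnt_int (M : ℕ) (t : ℤ) (h : |t| < M) :
    ∑ p ∈ Finset.range M, ∑ q ∈ Finset.range M, (if (p : ℤ) - (q : ℤ) = t then (1 : ℂ) else 0)
      = (M : ℂ) - (|t| : ℤ) := by
  rcases Int.eq_nat_or_neg t with ⟨n, rfl | rfl⟩
  · rw [Finset.sum_comm]
    have h0 : |(n : ℤ)| = n := abs_of_nonneg (by positivity)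
    rw [h0] at h ⊢
    rw [cnt_nat M n (by exact_mod_cast h)]
    push_cast
    ring
  · have h0 : |(-(n : ℤ))| = n := by rw [abs_neg]; exact abs_of_nonneg (by positivity)
    rw [h0] at h ⊢
    have h1 := cnt_nat M n (by exact_mod_cast h)
    rw [show ((M : ℂ) - ((n : ℤ) : ℂ)) = (M : ℂ) - n by push_cast; ring, ← h1]
    refine Finset.sum_congr rfl fun p _ => Finset.sum_congr rfl fun q _ => ?_
    have : ((p : ℤ) - (q : ℤ) = -(n : ℤ)) ↔ ((q : ℤ) - (p : ℤ) = (n : ℤ)) := by omega
    simp only [this]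

/-- SCO. -/
theorem sco_proof : ScoStatement := by
  intro m N M c t hm hM ht hN
  have hN0 : 0 < N := by
    have := abs_nonneg t
    omega
  have hNc : (N : ℂ) ≠ 0 := by exact_mod_cast hN0.ne'
  have h1 : ∀ l : ℕ, fej c N M l * Complex.exp (2 * Real.pi * Complex.I * l * t / N) =
      ∑ p ∈ Finset.range M, ∑ q ∈ Finset.range M, ((M : ℂ)⁻¹ * ker c ((p : ℤ) - (q : ℤ))) *
        ee ((l : ℝ) * (((t - ((p : ℤ) - (q : ℤ)) : ℤ) : ℝ) / N)) := by
    intro l
    have h2 : Complex.exp (2 * Real.pi * Complex.I * l * t / N) = ee ((l : ℝ) * t / N) := by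
      unfold ee
      congr 1
      push_cast
      ring
    rw [fej_eq, h2, Finset.mul_sum, Finset.sum_mul]
    refine Finset.sum_congr rfl fun p _ => ?_
    rw [Finset.mul_sum, Finset.sum_mul]
    refine Finset.sum_congr rfl fun q _ => ?_
    rw [mul_assoc, mul_assoc, mul_assoc, ← ee_add]
    congr 3
    push_cast
    ring
  simp only [h1]
  rw [Finset.sum_comm]
  have h3 : ∀ p ∈ Finset.range M, ∑ l ∈ Finset.range N, ∑ q ∈ Finset.range M,
      ((M : ℂ)⁻¹ * ker c ((p : ℤ) - (q : ℤ))) *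
        ee ((l : ℝ) * (((t - ((p : ℤ) - (q : ℤ)) : ℤ) : ℝ) / N)) =
      ((M : ℂ)⁻¹ * ker c t * N) *
        ∑ q ∈ Finset.range M, (if (p : ℤ) - (q : ℤ) = t then (1 : ℂ) else 0) := by
    intro p hp
    rw [Finset.sum_comm, Finset.mul_sum]
    refine Finset.sum_congr rfl fun q hq => ?_
    rw [← Finset.mul_sum, sum_ee hN0]
    have h4 : ((N : ℤ) ∣ t - ((p : ℤ) - (q : ℤ))) ↔ (p : ℤ) - (q : ℤ) = t := by
      rw [Finset.mem_range] at hp hq
      constructor
      · intro h
        have h5 : t - ((p : ℤ) - (q : ℤ)) = 0 := by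
          refine Int.eq_zero_of_abs_lt_dvd h ?_
          have h6 : |(p : ℤ) - (q : ℤ)| < M := by
            rw [abs_lt]; constructor <;> omega
          have h7 := abs_sub t ((p : ℤ) - (q : ℤ))
          omega
        omega
      · intro h
        rw [h, sub_self]
        exact dvd_zero _
    by_cases h5 : (p : ℤ) - (q : ℤ) = t
    · rw [if_pos (h4.2 h5), if_pos h5, h5]; ring
    · rw [if_neg (fun h => h5 (h4.1 h)), if_neg h5]; ring
  rw [Finset.sum_congr rfl h3, ← Finset.mul_sum, cnt_int M t ht]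
  field_simp

end RotFourier.UP
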