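import Pool.Agent.Lib.MP_7fb13b_lc.UP.Defs

/-!
# Row TWO: gates on the pairs `(inl k, inr k)`
-/

open Matrix

set_option linter.unusedSectionVars false

namespace RotFourier.UP

/-- `(0, k)` goes to `inl k`, `(1, k)` to `inr k`. -/
def twoEmb (n : ℕ) : Fin 2 × Fin n ↪ Fin n ⊕ Fin n where
  toFun x := if x.1 = 0 then Sum.inl x.2 else Sum.inr x.2
  inj' := by
    rintro ⟨i, k⟩ ⟨i', k'⟩ h
    fin_cases i <;> fin_cases i' <;> simp_all

@[simp] lemma twoEmb_zero (n : ℕ) (k : Fin n) : twoEmb n (0, k) = Sum.inl k := rfl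

@[simp] lemma twoEmb_one (n : ℕ) (k : Fin n) : twoEmb n (1, k) = Sum.inr k := rfl

lemma isTwoCoordinate_fin_two {U : Matrix (Fin 2) (Fin 2) ℂ}
    (h : U ∈ Matrix.unitaryGroup (Fin 2) ℂ) : IsTwoCoordinate U := by
  refine ⟨h, 0, 1, by decide, fun a b hab => absurd ?_ hab⟩
  fin_cases a <;> fin_cases b <;> simp

/-- Row TWO. -/
theorem two_proof (h : BlkStatement) : TwoStatement := by
  intro n a b c d hU
  have h1 := h (Fin 2) (Fin n) (Fin n ⊕ Fin n) (twoEmb n)
    (fun k => !![a k, b k; c k, d k]) 1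
    (fun j f _ => Alg.single (isTwoCoordinate_place f (isTwoCoordinate_fin_two (hU j))))
  have e : (Matrix.fromBlocks (Matrix.diagonal a) (Matrix.diagonal b) (Matrix.diagonal c)
      (Matrix.diagonal d) : Matrix (Fin n ⊕ Fin n) (Fin n ⊕ Fin n) ℂ) =
      place (twoEmb n) (Matrix.blockDiagonal fun k => !![a k, b k; c k, d k]) := by
    refine eq_place ?_ ?_ ?_
    · rintro ⟨i, k⟩ ⟨j, l⟩
      rw [Matrix.blockDiagonal_apply]
      fin_cases i <;> fin_cases j
      all_goals
        by_cases hkl : k = l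
        · subst hkl
          simp
        · simp [hkl]
    · intro k l hk
      rcases k with k | k
      · exact absurd rfl (hk (0, k))
      · exact absurd rfl (hk (1, k))
    · intro k l hl
      rcases l with l | l
      · exact absurd rfl (hl (0, l))
      · exact absurd rfl (hl (1, l))
  rw [e]
  simpa using h1

end RotFourier.UP
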