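import Pool.Agent.Lib.MP_7fb13b_lc.UP.Diag
import Pool.Agent.Lib.MP_7fb13b_lc.UP.Perm
import Pool.Agent.Lib.MP_7fb13b_lc.UP.Blk
import Pool.Agent.Lib.MP_7fb13b_lc.UP.Two
import Pool.Agent.Lib.MP_7fb13b_lc.UP.Cid
import Pool.Agent.Lib.MP_7fb13b_lc.UP.Ct
import Pool.Agent.Lib.MP_7fb13b_lc.UP.Rid
import Pool.Agent.Lib.MP_7fb13b_lc.UP.Rad
import Pool.Agent.Lib.MP_7fb13b_lc.UP.Dil
import Pool.Agent.Lib.MP_7fb13b_lc.UP.Amp
import Pool.Agent.Lib.MP_7fb13b_lc.UP.Spl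
import Pool.Agent.Lib.MP_7fb13b_lc.UP.Sbd
import Pool.Agent.Lib.MP_7fb13b_lc.UP.Sco
import Pool.Agent.Lib.MP_7fb13b_lc.UP.Emb
import Pool.Agent.Lib.MP_7fb13b_lc.UP.Chi
import Pool.Agent.Lib.MP_7fb13b_lc.UP.Drt
import Pool.Agent.Lib.MP_7fb13b_lc.UP.Rec
import Pool.Agent.Lib.MP_7fb13b_lc.UP.Fin

/-!
# MP_7fb13b_lc, board UFN : the theorem for all lengths
-/

namespace RotFourier.UP

theorem ct : CTStatement := ct_proof diag_proof perm_proof blk_proof cid_proof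

theorem rad : RadStatement := rad_proof diag_proof perm_proof rid_proof

theorem drt : DrtStatement :=
  drt_proof diag_proof perm_proof (dil_proof (two_proof blk_proof)) (amp_proof diag_proof)
    spl_proof (emb_proof sbd_proof sco_proof) chi_proof

theorem fin : FinStatement := fin_proof (two_proof blk_proof) (rec_proof ct rad drt)

theorem main_proof :
    ∃ C : ℝ, ∀ n : ℕ, 2 ≤ n →
      (∃ l : List (Matrix (Fin n) (Fin n) ℂ), (∀ R ∈ l, IsTwoCoordinate R) ∧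
        l.prod = dft n ∧ (l.length : ℝ) ≤ C * (n * Real.log n)) ∧
      ∀ α : ℝ, ∃ l : List (Matrix (Fin n ⊕ Fin n) (Fin n ⊕ Fin n) ℂ),
        (∀ R ∈ l, IsTwoCoordinate R) ∧ l.prod = rotX n α ∧
          (l.length : ℝ) ≤ C * (n * Real.log n) := by
  obtain ⟨C, hC⟩ := fin
  refine ⟨C, fun n hn => ⟨?_, fun α => ?_⟩⟩
  · obtain ⟨s, hs, l, h1, h2, h3⟩ := (hC n hn).1
    exact ⟨l, h1, h2, le_trans (by exact_mod_cast h3) hs⟩
  · obtain ⟨s, hs, l, h1, h2, h3⟩ := (hC n hn).2 α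
    exact ⟨l, h1, h2, le_trans (by exact_mod_cast h3) hs⟩

end RotFourier.UP
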