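import Pool.Agent.Lib.MP_7fb13b_lc.UP.Defs

/-!
# MP_7fb13b_lc, row SPL: a unitary matrix with a unitary corner splits
-/

open Matrix

namespace RotFourier.UP

section

variable {κ : Type} [Fintype κ] [DecidableEq κ]

/-- A row of a unitary matrix with a diagonal entry `1` is a unit vector. -/
lemma unitary_row {B : Matrix κ κ ℂ} (hB : B ∈ Matrix.unitaryGroup κ ℂ) {k : κ}
    (hk : B k k = 1) (l : κ) : B k l = (1 : Matrix κ κ ℂ) k l := by
  by_cases hkl : k = l
  · subst hkl
    rw [hk, Matrix.one_apply_eq]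
  · rw [Matrix.one_apply_ne hkl]
    have h1 : (B * star B) k k = (1 : Matrix κ κ ℂ) k k := by
      rw [Matrix.mem_unitaryGroup_iff.1 hB]
    rw [Matrix.one_apply_eq, Matrix.mul_apply] at h1
    have h2 : ∀ j, B k j * (star B) j k = ((‖B k j‖ ^ 2 : ℝ) : ℂ) := by
      intro j
      rw [Matrix.star_apply, Complex.star_def, Complex.mul_conj, Complex.normSq_eq_norm_sq]
    simp only [h2] at h1
    have h3 : ∑ j, ‖B k j‖ ^ 2 = 1 := by
      have h4 : ((∑ j, ‖B k j‖ ^ 2 : ℝ) : ℂ) = ((1 : ℝ) : ℂ) := by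
        rw [Complex.ofReal_sum, h1, Complex.ofReal_one]
      exact Complex.ofReal_injective h4
    have h5 : ‖B k k‖ ^ 2 + ‖B k l‖ ^ 2 ≤ 1 := by
      rw [← h3, ← Finset.sum_pair (f := fun j => ‖B k j‖ ^ 2) hkl]
      exact Finset.sum_le_sum_of_subset_of_nonneg (Finset.subset_univ _)
        (fun j _ _ => sq_nonneg _)
    rw [hk, norm_one] at h5
    have h6 : ‖B k l‖ ^ 2 ≤ 0 := by linarith
    have h7 : ‖B k l‖ = 0 := by
      have := sq_nonneg ‖B k l‖
      exact pow_eq_zero_iff (two_ne_zero) |>.1 (le_antisymm h6 this)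
    exact norm_eq_zero.1 h7

lemma unitary_col {B : Matrix κ κ ℂ} (hB : B ∈ Matrix.unitaryGroup κ ℂ) {k : κ}
    (hk : B k k = 1) (l : κ) : B l k = (1 : Matrix κ κ ℂ) l k := by
  have hB' : Bᴴ ∈ Matrix.unitaryGroup κ ℂ := by
    rw [Matrix.mem_unitaryGroup_iff, Matrix.star_eq_conjTranspose,
      Matrix.conjTranspose_conjTranspose, ← Matrix.star_eq_conjTranspose]
    exact Matrix.mem_unitaryGroup_iff'.1 hB
  have h1 := unitary_row hB' (k := k) (by rw [Matrix.conjTranspose_apply, hk, star_one]) l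
  rw [Matrix.conjTranspose_apply] at h1
  have h2 := congrArg star h1
  rw [star_star] at h2
  rw [h2]
  by_cases hkl : k = l
  · subst hkl
    rw [Matrix.one_apply_eq, star_one]
  · rw [Matrix.one_apply_ne hkl, Matrix.one_apply_ne (Ne.symm hkl), star_zero]

end

/-- Row SPL. -/
theorem spl_proof : SplStatement := by
  intro ι ι' κ _ _ _ _ _ _ e e' A U hd hcov hU hA hAU
  have hUU : Uᴴ * U = 1 := by
    rw [← Matrix.star_eq_conjTranspose]
    exact Matrix.mem_unitaryGroup_iff'.1 hU
  have hUU' : U * Uᴴ = 1 := by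
    rw [← Matrix.star_eq_conjTranspose]
    exact Matrix.mem_unitaryGroup_iff.1 hU
  have hUh : Uᴴ ∈ Matrix.unitaryGroup ι ℂ := by
    rw [Matrix.mem_unitaryGroup_iff, Matrix.star_eq_conjTranspose,
      Matrix.conjTranspose_conjTranspose]
    exact hUU
  have hB : place e Uᴴ * A ∈ Matrix.unitaryGroup κ ℂ := mul_mem (place_mem_unitary e hUh) hA
  -- the corner of `B` is the identity
  obtain ⟨B, hBdef⟩ : ∃ B, B = place e Uᴴ * A := ⟨_, rfl⟩
  rw [← hBdef] at hB
  have hrow : ∀ x k, B (e x) k = ∑ z, Uᴴ x z * A (e z) k := by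
    intro x k
    rw [hBdef, Matrix.mul_apply]
    have h1 : ∑ z, Uᴴ x z * A (e z) k =
        ∑ l ∈ Finset.univ.map e, place e Uᴴ (e x) l * A l k := by
      rw [Finset.sum_map]
      apply Finset.sum_congr rfl
      intro z _
      rw [place_apply]
    rw [h1]
    symm
    apply Finset.sum_subset (Finset.subset_univ _)
    intro l _ hl
    have hl' : ∀ i, l ≠ e i := by
      intro i hi
      exact hl (Finset.mem_map.2 ⟨i, Finset.mem_univ _, hi.symm⟩)
    rw [place_apply_right e Uᴴ (e x) l hl', Matrix.one_apply_ne (Ne.symm (hl' x)), zero_mul]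
  have hcor : ∀ x, B (e x) (e x) = 1 := by
    intro x
    rw [hrow]
    have h1 : ∑ z, Uᴴ x z * A (e z) (e x) = (Uᴴ * U) x x := by
      rw [Matrix.mul_apply]
      exact Finset.sum_congr rfl fun z _ => by rw [hAU]
    rw [h1, hUU, Matrix.one_apply_eq]
  have hpl : place e' (B.submatrix e' e') = B := by
    refine (eq_place (fun i j => rfl) ?_ ?_).symm
    · intro k l hk
      rcases hcov k with ⟨i, rfl⟩ | ⟨i, rfl⟩
      · exact unitary_row hB (hcor i) l
      · exact absurd rfl (hk i)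
    · intro k l hl
      rcases hcov l with ⟨i, rfl⟩ | ⟨i, rfl⟩
      · exact unitary_col hB (hcor i) k
      · exact absurd rfl (hl i)
  refine ⟨B.submatrix e' e', ?_, ?_⟩
  · rw [Matrix.mem_unitaryGroup_iff, Matrix.star_eq_conjTranspose]
    have h1 : place e' (B.submatrix e' e' * (B.submatrix e' e')ᴴ) = 1 := by
      rw [place_mul, place_conj, hpl, ← Matrix.star_eq_conjTranspose]
      exact Matrix.mem_unitaryGroup_iff.1 hB
    ext i j
    have h2 := place_apply e' (B.submatrix e' e' * (B.submatrix e' e')ᴴ) i j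
    rw [h1] at h2
    rw [← h2]
    by_cases hij : i = j
    · subst hij
      rw [Matrix.one_apply_eq, Matrix.one_apply_eq]
    · rw [Matrix.one_apply_ne hij, Matrix.one_apply_ne (e'.injective.ne hij)]
  · rw [hpl, hBdef, ← Matrix.mul_assoc, ← place_mul, hUU', place_one, Matrix.one_mul]

end RotFourier.UP
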